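import Mathlib
import Pool.Agent.Lib.MP_60829e_nt.PS.DDer
import Pool.Agent.Lib.MP_60829e_nt.PS.UDefs

/-!
Generic smoothness by ultraproducts and derivations.

Let `Y : I → σ → k` be a family of points which is generic for an ultrafilter `U` on `I` (no nonzero
polynomial vanishes at `Y a` for `U`-almost all `a`), and let `y a` solve polynomial equations
`P j (Y a, y a) = 0` for `U`-almost all `a`. Then for `U`-almost all `a` every direction `ψ` of the
parameters lifts to a direction `(ψ, η)` tangent to the equations.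

PROOF. In the ultrapower `K` of `k` the classes `Y*_s` are algebraically independent over `k`, so
there is a derivation of `K` over `k` with `∂ Y*_s' = δ` ; it is applied to `P j (Y*, y*) = 0`.
-/

set_option autoImplicit false

namespace MP60829e.FC

open MvPolynomial Filter
open MP60829e.PS

theorem up_aeval {I : Type*} (φ : Ultrafilter I) {k : Type*} [Field k] {ρ : Type*}
    (c : I → ρ → k) (p : MvPolynomial ρ k) :
    aeval (fun j => UP.mk φ (fun i => c i j)) p = UP.mk φ (fun i => eval (c i) p) := by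
  induction p using MvPolynomial.induction_on with
  | C a =>
    simp only [aeval_C, eval_C]
    rfl
  | add p q hp hq =>
    rw [map_add, hp, hq, ← map_add]
    congr 1
    funext i
    simp
  | mul_X p j hp =>
    rw [map_mul, hp, aeval_X, ← map_mul]
    congr 1
    funext i
    simp

/-- chain rule for a derivation which is linear over the coefficients -/
theorem derivation_aeval {k K : Type*} [Field k] [Field K] [Algebra k K] {ρ : Type*} [Fintype ρ]
    (D : Derivation k K K) (z : ρ → K) (p : MvPolynomial ρ k) :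
    D (aeval z p) = ∑ i, D (z i) * aeval z (pderiv i p) := by
  classical
  induction p using MvPolynomial.induction_on with
  | C a =>
    rw [aeval_C, Derivation.map_algebraMap]
    symm
    apply Finset.sum_eq_zero
    intro i _
    rw [pderiv_C, map_zero, mul_zero]
  | add p q hp hq =>
    rw [map_add, map_add, hp, hq, ← Finset.sum_add_distrib]
    refine Finset.sum_congr rfl fun i _ => ?_
    rw [map_add, map_add, mul_add]
  | mul_X p j hp =>
    rw [map_mul, Derivation.leibniz, hp, aeval_X]
    have h : ∀ i, D (z i) * aeval z (pderiv i (p * X j)) =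
        z j * (D (z i) * aeval z (pderiv i p)) +
          aeval z p * (D (z i) * (if i = j then 1 else 0)) := by
      intro i
      rw [pderiv_mul, pderiv_X, map_add, map_mul, map_mul, aeval_X]
      by_cases hij : i = j
      · subst hij
        simp only [Pi.single_eq_same, map_one, if_true]
        ring
      · rw [Pi.single_eq_of_ne (Ne.symm hij), map_zero, if_neg hij]
        ring
    rw [Finset.sum_congr rfl fun i _ => h i, Finset.sum_add_distrib, ← Finset.mul_sum,
      ← Finset.mul_sum]
    simp only [mul_ite, mul_one, mul_zero, Finset.sum_ite_eq', Finset.mem_univ, if_true,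
      smul_eq_mul]
    ring

/-- Generic smoothness, general form. -/
theorem gs_gen {k : Type*} [Field k] [CharZero k] {I σ τ J : Type*} [Fintype σ] [Fintype τ]
    [Finite J] (U : Ultrafilter I) (Y : I → σ → k)
    (hU : ∀ P : MvPolynomial σ k, P ≠ 0 → ∀ᶠ a in (U : Filter I), eval (Y a) P ≠ 0)
    (P : J → MvPolynomial (σ ⊕ τ) k) (y : I → τ → k)
    (hy : ∀ᶠ a in (U : Filter I), ∀ j, eval (Sum.elim (Y a) (y a)) (P j) = 0) :
    ∀ᶠ a in (U : Filter I), ∀ ψ : σ → k, ∃ η : τ → k, ∀ j,
      ∑ s, ψ s * eval (Sum.elim (Y a) (y a)) (pderiv (Sum.inl s) (P j)) +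
        ∑ t, η t * eval (Sum.elim (Y a) (y a)) (pderiv (Sum.inr t) (P j)) = 0 := by
  classical
  let Ys : σ → UP U k := fun s => UP.mk U (fun a => Y a s)
  have hind : AlgebraicIndependent k Ys := by
    rw [algebraicIndependent_iff]
    intro p hp
    by_contra hne
    have h1 : UP.mk U (fun i => eval (Y i) p) = 0 := by
      rw [← hp]
      exact (up_aeval U Y p).symm
    have h2 := UP.mk_eq_zero.1 h1
    obtain ⟨i, hi1, hi2⟩ := (h2.and (hU p hne)).exists
    exact hi2 hi1
  have hex : ∀ s : σ, ∃ D : Derivation k (UP U k) (UP U k), ∀ s', D (Ys s') =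
      if s' = s then 1 else 0 := fun s =>
    exists_derivation_of_algebraicIndependent hind _
  choose D hD using hex
  have hex2 : ∀ (s : σ) (t : τ), ∃ e : I → k, UP.mk U e = D s (UP.mk U (fun a => y a t)) :=
    fun s t => UP.mk_surjective U _
  choose e he using hex2
  have hmain : ∀ (s : σ) (j : J), ∀ᶠ a in (U : Filter I),
      eval (Sum.elim (Y a) (y a)) (pderiv (Sum.inl s) (P j)) +
        ∑ t, e s t a * eval (Sum.elim (Y a) (y a)) (pderiv (Sum.inr t) (P j)) = 0 := by
    intro s j
    let c : I → (σ ⊕ τ) → k := fun a => Sum.elim (Y a) (y a)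
    let z : (σ ⊕ τ) → UP U k := fun i => UP.mk U (fun a => c a i)
    have hz0 : aeval z (P j) = 0 := by
      rw [up_aeval U c (P j)]
      exact UP.mk_eq_zero.2 (hy.mono fun a ha => ha j)
    have h1 := derivation_aeval (D s) z (P j)
    rw [hz0, map_zero, Fintype.sum_sum_type] at h1
    have h2 : ∀ s' : σ, D s (z (Sum.inl s')) = if s' = s then 1 else 0 := fun s' => hD s s'
    have h3 : ∀ t : τ, D s (z (Sum.inr t)) = UP.mk U (e s t) := fun t => (he s t).symm
    have h7 : ∀ q : MvPolynomial (σ ⊕ τ) k, aeval z q = UP.mk U (fun a => eval (c a) q) :=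
      fun q => up_aeval U c q
    simp only [h2, h3, h7] at h1
    simp only [ite_mul, one_mul, zero_mul, Finset.sum_ite_eq', Finset.mem_univ, if_true] at h1
    have h4 : UP.mk U (fun a => eval (Sum.elim (Y a) (y a)) (pderiv (Sum.inl s) (P j)) +
        ∑ t, e s t a * eval (Sum.elim (Y a) (y a)) (pderiv (Sum.inr t) (P j))) = 0 := by
      rw [h1]
      have h5 : (fun a => eval (Sum.elim (Y a) (y a)) (pderiv (Sum.inl s) (P j)) +
          ∑ t, e s t a * eval (Sum.elim (Y a) (y a)) (pderiv (Sum.inr t) (P j))) =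
          (fun a => eval (c a) (pderiv (Sum.inl s) (P j))) +
            ∑ t, (e s t) * (fun a => eval (c a) (pderiv (Sum.inr t) (P j))) := by
        funext a
        simp only [Pi.add_apply, Finset.sum_apply, Pi.mul_apply]
        rfl
      rw [h5, map_add, map_sum]
      simp only [map_mul]
    exact UP.mk_eq_zero.1 h4
  have hall : ∀ᶠ a in (U : Filter I), ∀ (s : σ) (j : J),
      eval (Sum.elim (Y a) (y a)) (pderiv (Sum.inl s) (P j)) +
        ∑ t, e s t a * eval (Sum.elim (Y a) (y a)) (pderiv (Sum.inr t) (P j)) = 0 := by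
    rw [eventually_all]
    intro s
    rw [eventually_all]
    exact hmain s
  refine hall.mono fun a ha ψ => ⟨fun t => ∑ s, ψ s * e s t a, fun j => ?_⟩
  have h6 : ∑ t, (∑ s, ψ s * e s t a) *
      eval (Sum.elim (Y a) (y a)) (pderiv (Sum.inr t) (P j)) =
      ∑ s, ψ s * ∑ t, e s t a * eval (Sum.elim (Y a) (y a)) (pderiv (Sum.inr t) (P j)) := by
    simp only [Finset.sum_mul, Finset.mul_sum]
    rw [Finset.sum_comm]
    exact Finset.sum_congr rfl fun s _ => Finset.sum_congr rfl fun t _ => by ring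
  rw [h6, ← Finset.sum_add_distrib]
  apply Finset.sum_eq_zero
  intro s _
  rw [← mul_add, ha s j, mul_zero]

/-- The special case of rational parameters. -/
theorem gs {k : Type*} [Field k] [CharZero k] {σ τ J : Type*} [Fintype σ] [Fintype τ]
    [Finite J] (U : Ultrafilter (σ → ℚ))
    (hU : ∀ P : MvPolynomial σ k, P ≠ 0 →
      ∀ᶠ a in (U : Filter (σ → ℚ)), eval (fun s => ((a s : ℚ) : k)) P ≠ 0)
    (P : J → MvPolynomial (σ ⊕ τ) k) (y : (σ → ℚ) → τ → k)
    (hy : ∀ᶠ a in (U : Filter (σ → ℚ)), ∀ j,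
      eval (Sum.elim (fun s => ((a s : ℚ) : k)) (y a)) (P j) = 0) :
    ∀ᶠ a in (U : Filter (σ → ℚ)), ∀ ψ : σ → k, ∃ η : τ → k, ∀ j,
      ∑ s, ψ s * eval (Sum.elim (fun s => ((a s : ℚ) : k)) (y a)) (pderiv (Sum.inl s) (P j)) +
        ∑ t, η t * eval (Sum.elim (fun s => ((a s : ℚ) : k)) (y a)) (pderiv (Sum.inr t) (P j)) =
          0 :=
  gs_gen U (fun a s => ((a s : ℚ) : k)) hU P y hy

/-- A Zariski dense set of parameters belongs to a generic ultrafilter. -/
theorem exists_ultra {k : Type*} [Field k] {I σ : Type*} (Y : I → σ → k) (B : Set I)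
    (hB : ∀ P : MvPolynomial σ k, P ≠ 0 → ∃ a ∈ B, eval (Y a) P ≠ 0) :
    ∃ U : Ultrafilter I, (∀ᶠ a in (U : Filter I), a ∈ B) ∧
      ∀ P : MvPolynomial σ k, P ≠ 0 → ∀ᶠ a in (U : Filter I), eval (Y a) P ≠ 0 := by
  classical
  set l : Filter I := ⨅ P : {P : MvPolynomial σ k // P ≠ 0},
    𝓟 {a | a ∈ B ∧ eval (Y a) P.1 ≠ 0} with hl
  have : Nonempty {P : MvPolynomial σ k // P ≠ 0} := ⟨⟨1, one_ne_zero⟩⟩
  have hne : NeBot l := by
    rw [hl]
    refine iInf_neBot_of_directed' ?_ ?_
    · intro P₁ P₂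
      refine ⟨⟨P₁.1 * P₂.1, mul_ne_zero P₁.2 P₂.2⟩, ?_, ?_⟩
      · simp only [ge_iff_le, le_principal_iff, mem_principal, Set.setOf_subset_setOf]
        rintro a ⟨h1, h2⟩
        rw [map_mul] at h2
        exact ⟨h1, left_ne_zero_of_mul h2⟩
      · simp only [ge_iff_le, le_principal_iff, mem_principal, Set.setOf_subset_setOf]
        rintro a ⟨h1, h2⟩
        rw [map_mul] at h2
        exact ⟨h1, right_ne_zero_of_mul h2⟩
    · intro P
      obtain ⟨a, h1, h2⟩ := hB P.1 P.2
      exact principal_neBot_iff.2 ⟨a, h1, h2⟩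
  have hmem : ∀ P : MvPolynomial σ k, P ≠ 0 →
      ∀ᶠ a in (Ultrafilter.of l : Filter I), a ∈ B ∧ eval (Y a) P ≠ 0 := by
    intro P hP
    have h1 : {a | a ∈ B ∧ eval (Y a) P ≠ 0} ∈ l := by
      rw [hl]
      exact mem_iInf_of_mem ⟨P, hP⟩ (mem_principal_self _)
    exact Ultrafilter.of_le l h1
  exact ⟨Ultrafilter.of l, (hmem 1 one_ne_zero).mono fun a ha => ha.1,
    fun P hP => (hmem P hP).mono fun a ha => ha.2⟩

end MP60829e.FC
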