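import Pool.Agent.Lib.MP_60829e_nt.FC.Defs
import Pool.Agent.Lib.MP_60829e_nt.BBaker

/-! # A sequence which is a rational basis of the space of the logarithms -/

open Module

namespace MP60829e.FC

open MP60829e.ST (Qa Lsp Lt)

/-- Logarithms of distinct primes are linearly independent over the rationals. -/
private theorem log_primes :
    LinearIndependent ℚ (fun p : Nat.Primes => ((Real.log (p : ℕ) : ℝ) : ℂ)) := by
  classical
  rw [← LinearIndependent.iff_fractionRing (R := ℤ) (K := ℚ)]
  rw [linearIndependent_iff']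
  intro s g hg
  have h1 : ∑ p ∈ s, (g p : ℝ) * Real.log (p : ℕ) = 0 := by
    have : ((∑ p ∈ s, (g p : ℝ) * Real.log (p : ℕ) : ℝ) : ℂ) = 0 := by
      rw [← hg]
      push_cast
      refine Finset.sum_congr rfl fun p _ => ?_
      simp
    exact_mod_cast this
  have h2 : ∏ p ∈ s, ((p : ℕ) : ℝ) ^ (g p).toNat = ∏ p ∈ s, ((p : ℕ) : ℝ) ^ (-g p).toNat := by
    apply Real.log_injOn_pos
    · simp only [Set.mem_Ioi]
      exact Finset.prod_pos fun p _ => pow_pos (by exact_mod_cast p.2.pos) _
    · simp only [Set.mem_Ioi]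
      exact Finset.prod_pos fun p _ => pow_pos (by exact_mod_cast p.2.pos) _
    · rw [Real.log_prod, Real.log_prod]
      · rw [← sub_eq_zero, ← Finset.sum_sub_distrib, ← h1]
        refine Finset.sum_congr rfl fun p _ => ?_
        rw [Real.log_pow, Real.log_pow, ← sub_mul]
        congr 1
        have := Int.toNat_sub_toNat_neg (g p)
        exact_mod_cast this
      · intro p _
        exact pow_ne_zero _ (by exact_mod_cast p.2.ne_zero)
      · intro p _
        exact pow_ne_zero _ (by exact_mod_cast p.2.ne_zero)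
  have h3 : ∏ p ∈ s, (p : ℕ) ^ (g p).toNat = ∏ p ∈ s, (p : ℕ) ^ (-g p).toNat := by
    exact_mod_cast h2
  intro q hq
  have h4 := congrArg (fun m => Nat.factorization m (q : ℕ)) h3
  rw [Nat.factorization_prod, Nat.factorization_prod] at h4
  · simp only [Nat.factorization_pow, Finsupp.coe_finsetSum, Finset.sum_apply,
      Finsupp.coe_smul, Pi.smul_apply, smul_eq_mul] at h4
    have h5 : ∀ e : Nat.Primes → ℕ, ∑ p ∈ s, e p * ((p : ℕ).factorization (q : ℕ)) = e q := by
      intro e
      rw [Finset.sum_eq_single q]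
      · rw [q.2.factorization_self, mul_one]
      · intro p _ hpq
        rw [p.2.factorization, Finsupp.single_apply, if_neg, mul_zero]
        intro h
        exact hpq (Subtype.ext h)
      · intro h; exact absurd hq h
    rw [h5, h5] at h4
    omega
  · intro p _
    exact pow_ne_zero _ p.2.ne_zero
  · intro p _
    exact pow_ne_zero _ p.2.ne_zero

private theorem countable_logs : {z : ℂ | IsAlgebraic ℚ (Complex.exp z)}.Countable := by
  have h1 : {z : ℂ | IsAlgebraic ℚ (Complex.exp z)} =
      ⋃ a ∈ {a : ℂ | IsAlgebraic ℚ a}, {z : ℂ | Complex.exp z = a} := by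
    ext z
    simp
  rw [h1]
  refine (Algebraic.countable ℚ ℂ).biUnion fun a _ => ?_
  by_cases h : ∃ z0, Complex.exp z0 = a
  · obtain ⟨z0, rfl⟩ := h
    refine (Set.countable_range fun n : ℤ => z0 + n * (2 * Real.pi * Complex.I)).mono ?_
    intro z hz
    obtain ⟨n, hn⟩ := Complex.exp_eq_exp_iff_exists_int.1 (show Complex.exp z = Complex.exp z0 from hz)
    exact ⟨n, hn.symm⟩
  · have h2 : {z : ℂ | Complex.exp z = a} = ∅ := by
      ext z
      simp only [Set.mem_ofPred_eq, Set.mem_empty_iff_false, iff_false]
      exact fun hz => h ⟨z, hz⟩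
    rw [h2]
    exact Set.countable_empty

/-- PROOF. The set of the `z` with `exp z` algebraic is countable (`Algebraic.countable`, the fibres of
`exp` are countable) and a `ℚ`-subspace of infinite dimension (the logarithms of the primes are
independent over `ℚ`, by unique factorisation). A `ℚ`-basis of it is countable and infinite. -/
theorem exists_lam : ∃ lam : ℕ → ℂ, (∀ j, IsAlgebraic ℚ (Complex.exp (lam j))) ∧
    LinearIndependent ℚ lam ∧
      ∀ z : ℂ, IsAlgebraic ℚ (Complex.exp z) → z ∈ Submodule.span ℚ (Set.range lam) := by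
  classical
  have hc : Countable SE.Lg := countable_logs.to_subtype
  let b := Basis.ofVectorSpace ℚ SE.Lg
  have hc2 : Countable (Basis.ofVectorSpaceIndex ℚ SE.Lg) := inferInstance
  have hinf : Infinite (Basis.ofVectorSpaceIndex ℚ SE.Lg) := by
    by_contra hfin
    rw [not_infinite_iff_finite] at hfin
    have hM : Module.Finite ℚ SE.Lg := Module.Finite.of_basis b
    have h1 : LinearIndependent ℚ (fun p : Nat.Primes =>
        (⟨((Real.log (p : ℕ) : ℝ) : ℂ), SE.log_mem_Lg p⟩ : SE.Lg)) := by
      apply LinearIndependent.of_comp SE.Lg.subtype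
      exact log_primes
    have h2 : Finite Nat.Primes := h1.finite_of_isNoetherian
    exact not_finite Nat.Primes
  obtain ⟨hd⟩ := nonempty_denumerable (Basis.ofVectorSpaceIndex ℚ SE.Lg)
  let e : Basis.ofVectorSpaceIndex ℚ SE.Lg ≃ ℕ := Denumerable.eqv _
  let b' : Basis ℕ ℚ SE.Lg := b.reindex e
  refine ⟨fun j => (b' j : ℂ), fun j => (b' j).2, ?_, ?_⟩
  · exact b'.linearIndependent.map' SE.Lg.subtype (Submodule.ker_subtype _)
  · intro z hz
    have h1 : (⟨z, hz⟩ : SE.Lg) ∈ Submodule.span ℚ (Set.range b') := by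
      rw [b'.span_eq]
      trivial
    have h2 := Submodule.mem_map_of_mem (f := SE.Lg.subtype) h1
    rw [Submodule.map_span, ← Set.range_comp] at h2
    exact h2

/-- Baker's theorem. PROOF. In the library (homogeneous form: Q-independent logarithms of algebraic
numbers are independent over the algebraic numbers). -/
theorem baker (lam : ℕ → ℂ) (h : ∀ j, IsAlgebraic ℚ (Complex.exp (lam j)))
    (hli : LinearIndependent ℚ lam) : LinearIndependent Qa lam := by
  classical
  rw [linearIndependent_iff']
  intro s g hg p hp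
  have h1 := Pool.Agent.Lib.MP_60829e_nt.Bk.baker_hom (I := {p : ℕ // p ∈ s})
    (lam := fun i => lam i) (fun i => h i) (hli.comp _ Subtype.val_injective)
    (fun i => ((g i : Qa) : ℂ)) (fun i => mem_algebraicClosure_iff.mp (g i).2) (by
      rw [← hg, ← Finset.sum_attach s (fun i => g i • lam i)]
      refine Finset.sum_congr rfl fun i _ => ?_
      rw [mul_comm]
      rfl) ⟨p, hp⟩
  exact Subtype.ext h1

end MP60829e.FC
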