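import Pool.Agent.Lib.MP_60829e_nt.FC.Defs

/-! # The linear algebra of the tangent directions -/

open MvPolynomial Module

namespace MP60829e.FC

open MP60829e.ST (Qa Lsp Lt)

/-- PROOF. Linear algebra (`Submodule.exists_le_ker_of_notMem` or a dual basis). -/
theorem exists_sep {n : ℕ} (R : Submodule Qa (Fin n → Qa)) (c : Fin n → Qa) (hc : c ∉ R) :
    ∃ u : Fin n → Qa, (∀ v ∈ R, ∑ i, u i * v i = 0) ∧ ∑ i, u i * c i = 1 := by
  classical
  obtain ⟨f, hf, hR⟩ := Submodule.exists_le_ker_of_notMem hc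
  have hfv : ∀ v : Fin n → Qa, f v = ∑ i, f (Pi.single i 1) * v i := by
    intro v
    conv_lhs => rw [pi_eq_sum_univ' v]
    rw [map_sum]
    refine Finset.sum_congr rfl fun i _ => ?_
    rw [map_smul, smul_eq_mul, mul_comm]
  refine ⟨fun i => (f c)⁻¹ * f (Pi.single i 1), fun v hv => ?_, ?_⟩
  · have h1 : f v = 0 := hR hv
    simp only [mul_assoc]
    rw [← Finset.mul_sum, ← hfv, h1, mul_zero]
  · simp only [mul_assoc]
    rw [← Finset.mul_sum, ← hfv, inv_mul_cancel₀ hf]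

/-- The linear map `T ↦ ∑ i, u i • pt lam T i`. -/
noncomputable def cntMap {n r : ℕ} (lam : Fin (r + 1) → ℂ) (u : Fin n → Qa) :
    (Fin n × Fin (r + 1) → Qa) →ₗ[Qa] ℂ where
  toFun T := ∑ i, u i • TV.pt lam T i
  map_add' S T := by
    simp only [TV.pt, Pi.add_apply, add_smul, Finset.sum_add_distrib, smul_add]
  map_smul' q T := by
    simp only [TV.pt, Pi.smul_apply, smul_eq_mul, mul_smul, ← Finset.smul_sum, RingHom.id_apply]
    rw [Finset.smul_sum]
    exact Finset.sum_congr rfl fun i _ => smul_comm _ _ _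

theorem cntMap_apply {n r : ℕ} (lam : Fin (r + 1) → ℂ) (u : Fin n → Qa)
    (T : Fin n × Fin (r + 1) → Qa) : cntMap lam u T = ∑ i, u i • TV.pt lam T i := rfl

theorem cntMap_eq {n r : ℕ} (lam : Fin (r + 1) → ℂ) (u : Fin n → Qa)
    (T : Fin n × Fin (r + 1) → Qa) : cntMap lam u T = ∑ j, (∑ i, u i * T (i, j)) • lam j := by
  rw [cntMap_apply]
  simp only [TV.pt, Finset.smul_sum, Finset.sum_smul, mul_smul]
  exact Finset.sum_comm

/-- The linear map `T ↦ ∑ i, g i * pt lam T i`. -/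
noncomputable def cntG {n r : ℕ} (lam : Fin (r + 1) → ℂ) (g : Fin n → ℂ) :
    (Fin n × Fin (r + 1) → Qa) →ₗ[Qa] ℂ where
  toFun T := ∑ i, g i * TV.pt lam T i
  map_add' S T := by
    simp only [TV.pt, Pi.add_apply, add_smul, Finset.sum_add_distrib, mul_add]
  map_smul' q T := by
    simp only [TV.pt, Pi.smul_apply, smul_eq_mul, mul_smul, ← Finset.smul_sum, RingHom.id_apply,
      mul_smul_comm]

theorem cntG_apply {n r : ℕ} (lam : Fin (r + 1) → ℂ) (g : Fin n → ℂ)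
    (T : Fin n × Fin (r + 1) → Qa) : cntG lam g T = ∑ i, g i * TV.pt lam T i := rfl

/-- PROOF. For `s : Fin m` take `T s` and `v s` with `ψ = Pi.single s 1`. The map
`ψ ↦ class of ∑ s, ψ s • v s` in `V ⧸ (V ⊓ Lt)` has a kernel `Ψ` of dimension at least `m - v`
(rank-nullity). For `ψ ∈ Ψ`: `T = ∑ s, ψ s • T s` has `∑ g_i T_i ∈ Lt`, so
`t = ∑ i, u i • TV.pt lam T i` is in `Tsp g u`; `ψ ↦ t` is linear; it is injective on `Ψ`: if `t = 0` then all
coefficients `∑ i, u i * T (i, j)` vanish (`hlam`), so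
`0 = ∑ i, u i * ∑ j, T (i, j) x j s = - ψ s * ∑ i, u i * c i = - ψ s`. So `m - v ≤ s'`. -/
theorem count_le {n m r v s' : ℕ} (lam : Fin (r + 1) → ℂ) (hlam : LinearIndependent Qa lam)
    (hlog : ∀ j, lam j ∈ Lsp) (x : Fin (r + 1) → Fin m → ℚ) (g : Fin n → ℂ) (u c : Fin n → Qa)
    (huc : ∑ i, u i * c i = 1) (V : Submodule Qa ℂ) [FiniteDimensional Qa V]
    (hV : finrank Qa V ≤ v) (hfin : FiniteDimensional Qa (Tsp g u))
    (hs : finrank Qa (Tsp g u) ≤ s')
    (h : ∀ ψ : Fin m → Qa, ∃ T : Fin n × Fin (r + 1) → Qa, ∃ z ∈ V,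
      (∀ i s, ∑ j, T (i, j) * ((x j s : ℚ) : Qa) = -(ψ s * c i)) ∧
      ∑ i, g i * TV.pt lam T i + z ∈ Lt) : m ≤ v + s' := by
  classical
  choose T z hz hT hTz using fun s : Fin m => h (Pi.single s 1)
  let TL : (Fin m → Qa) →ₗ[Qa] (Fin n × Fin (r + 1) → Qa) := Fintype.linearCombination Qa T
  have hTL : ∀ ψ, TL ψ = ∑ s, ψ s • T s := fun ψ => Fintype.linearCombination_apply Qa T ψ
  let zL : (Fin m → Qa) →ₗ[Qa] ℂ := Fintype.linearCombination Qa z
  have hzL : ∀ ψ, zL ψ = ∑ s, ψ s • z s := fun ψ => Fintype.linearCombination_apply Qa z ψ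
  let Q : (Fin m → Qa) →ₗ[Qa] (ℂ ⧸ Lt) := Lt.mkQ ∘ₗ zL
  have hQr : finrank Qa (LinearMap.range Q) ≤ v := by
    have h1 : LinearMap.range Q ≤ V.map Lt.mkQ := by
      rintro _ ⟨ψ, rfl⟩
      refine Submodule.mem_map_of_mem ?_
      rw [hzL]
      exact Submodule.sum_mem _ fun s _ => V.smul_mem _ (hz s)
    exact (Submodule.finrank_mono h1).trans ((Submodule.finrank_map_le _ _).trans hV)
  have hrn := LinearMap.finrank_range_add_finrank_ker Q
  rw [Module.finrank_fin_fun] at hrn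
  -- the relation
  have hrel : ∀ ψ : Fin m → Qa, ∀ i s, ∑ j, TL ψ (i, j) * ((x j s : ℚ) : Qa) = -(ψ s * c i) := by
    intro ψ i s
    have e1 : ∀ j, TL ψ (i, j) * ((x j s : ℚ) : Qa) =
        ∑ t, ψ t * (T t (i, j) * ((x j s : ℚ) : Qa)) := by
      intro j
      rw [hTL, Finset.sum_apply, Finset.sum_mul]
      refine Finset.sum_congr rfl fun t _ => ?_
      rw [Pi.smul_apply, smul_eq_mul, mul_assoc]
    rw [Finset.sum_congr rfl fun j _ => e1 j, Finset.sum_comm]
    simp only [← Finset.mul_sum, hT]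
    rw [Finset.sum_eq_single s]
    · rw [Pi.single_eq_same]; ring
    · intro t _ hts
      rw [Pi.single_eq_of_ne (Ne.symm hts)]; ring
    · intro hh; exact absurd (Finset.mem_univ s) hh
  have hmem : ∀ ψ : Fin m → Qa, ψ ∈ LinearMap.ker Q → cntMap lam u (TL ψ) ∈ Tsp g u := by
    intro ψ hψ
    have h1 : zL ψ ∈ Lt := by
      have : Lt.mkQ (zL ψ) = 0 := hψ
      rwa [Submodule.mkQ_apply, Submodule.Quotient.mk_eq_zero] at this
    rw [mem_Tsp]
    refine ⟨fun i => TV.pt lam (TL ψ) i, fun i => ?_, ?_, rfl⟩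
    · exact Submodule.sum_mem _ fun j _ => Lsp.smul_mem _ (hlog j)
    · rw [← cntG_apply, hTL, map_sum]
      have e2 : ∑ s, cntG lam g (ψ s • T s) = ∑ s, ψ s • (cntG lam g (T s) + z s) - zL ψ := by
        rw [hzL, ← Finset.sum_sub_distrib]
        refine Finset.sum_congr rfl fun s _ => ?_
        rw [map_smul, smul_add, add_sub_cancel_right]
      rw [e2]
      refine Lt.sub_mem (Submodule.sum_mem _ fun s _ => Lt.smul_mem _ ?_) h1
      exact hTz s
  have hinj : ∀ ψ : Fin m → Qa, cntMap lam u (TL ψ) = 0 → ψ = 0 := by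
    intro ψ hψ
    rw [cntMap_eq] at hψ
    have h1 := Fintype.linearIndependent_iff.1 hlam _ hψ
    funext s
    have h2 : ∑ j, (∑ i, u i * TL ψ (i, j)) * ((x j s : ℚ) : Qa) = 0 :=
      Finset.sum_eq_zero fun j _ => by rw [h1 j, zero_mul]
    have h3 : ∑ j, (∑ i, u i * TL ψ (i, j)) * ((x j s : ℚ) : Qa) =
        ∑ i, u i * ∑ j, TL ψ (i, j) * ((x j s : ℚ) : Qa) := by
      simp only [Finset.sum_mul, Finset.mul_sum, mul_assoc]
      exact Finset.sum_comm
    rw [h3] at h2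
    simp only [hrel] at h2
    have h4 : ∑ i, u i * -(ψ s * c i) = -ψ s * ∑ i, u i * c i := by
      rw [Finset.mul_sum]
      exact Finset.sum_congr rfl fun i _ => by ring
    rw [h4, huc, mul_one, neg_eq_zero] at h2
    exact h2
  have hker : finrank Qa (LinearMap.ker Q) ≤ finrank Qa (Tsp g u) := by
    let F : LinearMap.ker Q →ₗ[Qa] Tsp g u :=
      ((cntMap lam u ∘ₗ TL).domRestrict (LinearMap.ker Q)).codRestrict (Tsp g u)
        fun ψ => hmem ψ.1 ψ.2
    refine LinearMap.finrank_le_finrank_of_injective (f := F) ?_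
    rw [← LinearMap.ker_eq_bot, LinearMap.ker_eq_bot']
    intro ψ hψ
    have h1 : cntMap lam u (TL ψ.1) = 0 := congrArg Subtype.val hψ
    exact Subtype.ext (hinj ψ.1 h1)
  omega

end MP60829e.FC
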