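import Mathlib
import Pool.Agent.Lib.MP_60829e_nt.TV.Sub
import Pool.Agent.Lib.MP_60829e_nt.ST.StrField

/-! # Theorem Q (finite codimension): definitions -/

open MvPolynomial Module

namespace MP60829e.FC

open MP60829e.ST (Qa Lsp Lt)

/-- Polynomials of degree `≤ D` in `n` variables with coefficients in `A`. -/
def PD (A : Submodule Qa ℂ) (n D : ℕ) : Submodule Qa (MvPolynomial (Fin n) ℂ) where
  carrier := {f | f.totalDegree ≤ D ∧ ∀ a, coeff a f ∈ A}
  zero_mem' := by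
    refine ⟨by simp, fun a => ?_⟩
    rw [coeff_zero]
    exact A.zero_mem
  add_mem' := by
    rintro f g ⟨hf, hf'⟩ ⟨hg, hg'⟩
    refine ⟨(totalDegree_add f g).trans (max_le hf hg), fun a => ?_⟩
    rw [coeff_add]
    exact A.add_mem (hf' a) (hg' a)
  smul_mem' := by
    rintro c f ⟨hf, hf'⟩
    refine ⟨?_, fun a => ?_⟩
    · have h : c • f = (c : ℂ) • f := rfl
      rw [h]
      exact (totalDegree_smul_le _ _).trans hf
    · have h : coeff a (c • f) = c • coeff a f := rfl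
      rw [h]
      exact A.smul_mem c (hf' a)

theorem mem_PD {A : Submodule Qa ℂ} {n D : ℕ} {f : MvPolynomial (Fin n) ℂ} :
    f ∈ PD A n D ↔ f.totalDegree ≤ D ∧ ∀ a, coeff a f ∈ A := Iff.rfl

/-- Affine polynomials with slopes in `Qa` and constant term in `A`. -/
def Aff (A : Submodule Qa ℂ) {n : ℕ} (f : MvPolynomial (Fin n) ℂ) : Prop :=
  ∃ a ∈ A, ∃ α : Fin n → Qa, f = C a + ∑ i, C (α i : ℂ) * X i

/-- On `X` a polynomial in `n` variables with values in `Lt` is affine. -/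
def GoodN (A : Submodule Qa ℂ) (n D : ℕ) (X : Submodule Qa ℂ) : Prop :=
  ∀ w : Fin n → ℂ, (∀ i, w i ∈ X) → LinearIndependent Qa w →
    ∀ f ∈ PD A n D, eval w f ∈ Lt → Aff A f

/-- `A` and `X` have intersection zero. -/
def GoodA (A X : Submodule Qa ℂ) : Prop := ∀ a ∈ A, a ∈ X → a = 0

/-- The property carried through the induction. -/
def Good (A : Submodule Qa ℂ) (n D : ℕ) (X : Submodule Qa ℂ) : Prop :=
  GoodA A X ∧ ∀ n' ≤ n, GoodN A n' D X

/-- The combinations of `lam 0, ..., lam (r - 1)` which are killed by the functional with the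
values `x j` at `lam j`. -/
def Xr (lam : ℕ → ℂ) {m : ℕ} (x : ℕ → Fin m → ℚ) (r : ℕ) : Submodule Qa ℂ where
  carrier := {z | ∃ c : Fin r → Qa, (∀ s, ∑ j, c j * ((x j s : ℚ) : Qa) = 0) ∧
    z = ∑ j, c j • lam j}
  zero_mem' := ⟨0, fun s => by simp, by simp⟩
  add_mem' := by
    rintro _ _ ⟨c, hc, rfl⟩ ⟨d, hd, rfl⟩
    refine ⟨c + d, fun s => ?_, ?_⟩
    · simp only [Pi.add_apply, add_mul, Finset.sum_add_distrib, hc s, hd s, add_zero]
    · simp only [Pi.add_apply, add_smul, Finset.sum_add_distrib]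
  smul_mem' := by
    rintro q _ ⟨c, hc, rfl⟩
    refine ⟨q • c, fun s => ?_, ?_⟩
    · simp only [Pi.smul_apply, smul_eq_mul, mul_assoc, ← Finset.mul_sum, hc s, mul_zero]
    · simp only [Pi.smul_apply, smul_eq_mul, mul_smul, ← Finset.smul_sum]

theorem mem_Xr {lam : ℕ → ℂ} {m : ℕ} {x : ℕ → Fin m → ℚ} {r : ℕ} {z : ℂ} :
    z ∈ Xr lam x r ↔ ∃ c : Fin r → Qa, (∀ s, ∑ j, c j * ((x j s : ℚ) : Qa) = 0) ∧
      z = ∑ j, c j • lam j := Iff.rfl

/-- The codimension. -/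
def bd (n D κ : ℕ) : ℕ := κ * (n + D).choose n + (n + 1) * (n + 2) + 2

/-- Almost every rational point is not a zero of a given nonzero polynomial over `Qa`. -/
def Gen {m : ℕ} (U : Ultrafilter (Fin m → ℚ)) : Prop :=
  ∀ P : MvPolynomial (Fin m) Qa, P ≠ 0 →
    ∀ᶠ a in (U : Filter (Fin m → ℚ)), eval (fun s => ((a s : ℚ) : Qa)) P ≠ 0

/-- The values `∑ u_i T_i` for `T_i` in `Lsp` with `∑ g_i T_i` in `Lt`. -/
def Tsp {n : ℕ} (g : Fin n → ℂ) (u : Fin n → Qa) : Submodule Qa ℂ where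
  carrier := {t | ∃ T : Fin n → ℂ, (∀ i, T i ∈ Lsp) ∧ ∑ i, g i * T i ∈ Lt ∧ t = ∑ i, u i • T i}
  zero_mem' := ⟨0, fun _ => Lsp.zero_mem, by simp, by simp⟩
  add_mem' := by
    rintro _ _ ⟨T, hT, hT', rfl⟩ ⟨S, hS, hS', rfl⟩
    refine ⟨T + S, fun i => Lsp.add_mem (hT i) (hS i), ?_, ?_⟩
    · simp only [Pi.add_apply, mul_add, Finset.sum_add_distrib]
      exact Lt.add_mem hT' hS'
    · simp only [Pi.add_apply, smul_add, Finset.sum_add_distrib]
  smul_mem' := by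
    rintro q _ ⟨T, hT, hT', rfl⟩
    refine ⟨q • T, fun i => Lsp.smul_mem q (hT i), ?_, ?_⟩
    · simp only [Pi.smul_apply, mul_smul_comm, ← Finset.smul_sum]
      exact Lt.smul_mem q hT'
    · simp only [Pi.smul_apply, Finset.smul_sum]
      exact Finset.sum_congr rfl fun i _ => smul_comm _ _ _

theorem mem_Tsp {n : ℕ} {g : Fin n → ℂ} {u : Fin n → Qa} {t : ℂ} : t ∈ Tsp g u ↔
    ∃ T : Fin n → ℂ, (∀ i, T i ∈ Lsp) ∧ ∑ i, g i * T i ∈ Lt ∧ t = ∑ i, u i • T i := Iff.rfl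

end MP60829e.FC
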