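import Pool.Agent.Lib.MP_60829e_nt.FC.Defs

/-! # Polynomials which are affine in one direction -/

open MvPolynomial Module

namespace MP60829e.FC

open MP60829e.ST (Qa Lsp Lt)

private theorem chain {n : ℕ} (g : Fin n → Polynomial ℂ) (f : MvPolynomial (Fin n) ℂ) :
    Polynomial.derivative (aeval g f) =
      ∑ i, aeval g (pderiv i f) * Polynomial.derivative (g i) := by
  classical
  induction f using MvPolynomial.induction_on with
  | C a => simp
  | add p q hp hq => simp only [map_add, hp, hq, add_mul, Finset.sum_add_distrib]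
  | mul_X p j hp =>
    rw [map_mul, Polynomial.derivative_mul, hp, aeval_X]
    have h1 : ∀ i, aeval g (pderiv i (p * X j)) * Polynomial.derivative (g i) =
        aeval g (pderiv i p) * Polynomial.derivative (g i) * g j +
          (if i = j then aeval g p * Polynomial.derivative (g i) else 0) := by
      intro i
      rw [Derivation.leibniz, pderiv_X, smul_eq_mul, smul_eq_mul, map_add, map_mul, map_mul,
        aeval_X]
      by_cases hij : i = j
      · subst hij
        simp only [Pi.single_eq_same, map_one, if_true]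
        ring
      · rw [Pi.single_eq_of_ne (Ne.symm hij), map_zero, if_neg hij]
        ring
    rw [Finset.sum_congr rfl fun i _ => h1 i, Finset.sum_add_distrib, ← Finset.sum_mul,
      Finset.sum_ite_eq' Finset.univ j, if_pos (Finset.mem_univ j)]

/-- PROOF. The polynomial `t ↦ f (z + t c)` in one variable has the derivative `γ`. -/
theorem eval_transl {n : ℕ} (f : MvPolynomial (Fin n) ℂ) (c : Fin n → ℂ) (γ : ℂ)
    (h : ∑ i, C (c i) * pderiv i f = C γ) (z : Fin n → ℂ) (t : ℂ) :
    eval (z + t • c) f = eval z f + γ * t := by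
  set g : Fin n → Polynomial ℂ := fun i => Polynomial.C (z i) + Polynomial.C (c i) * Polynomial.X
    with hg
  have h1 : Polynomial.derivative (aeval g f) = Polynomial.C γ := by
    rw [chain]
    have h2 : ∀ i, aeval g (pderiv i f) * Polynomial.derivative (g i) =
        aeval g (C (c i) * pderiv i f) := by
      intro i
      rw [map_mul, hg]
      simp only [Polynomial.derivative_add, Polynomial.derivative_C, Polynomial.derivative_mul,
        Polynomial.derivative_X]
      rw [aeval_C]
      simp only [Polynomial.algebraMap_eq]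
      ring
    rw [Finset.sum_congr rfl fun i _ => h2 i, ← map_sum, h, aeval_C]
    rfl
  have h3 : Polynomial.derivative (aeval g f - Polynomial.C γ * Polynomial.X) = 0 := by
    rw [Polynomial.derivative_sub, h1]
    simp
  have h4 : ∀ s : ℂ, Polynomial.eval s (aeval g f) = eval (z + s • c) f := by
    intro s
    have h6 : Polynomial.eval s (aeval g f) = aeval (fun i => Polynomial.eval s (g i)) f := by
      have h7 := MvPolynomial.map_aeval g (Polynomial.evalRingHom s) f
      rw [Polynomial.coe_evalRingHom] at h7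
      rw [h7, MvPolynomial.aeval_def, ← MvPolynomial.coe_eval₂Hom]
      congr 2
      ext a
      simp
    have h7 : ∀ w : Fin n → ℂ, aeval w f = eval w f := fun w => by
      rw [← MvPolynomial.coe_aeval_eq_eval]
      rfl
    rw [h6, h7]
    congr 2
    funext i
    simp only [hg, Polynomial.eval_add, Polynomial.eval_C, Polynomial.eval_mul, Polynomial.eval_X,
      Pi.add_apply, Pi.smul_apply, smul_eq_mul]
    ring
  obtain ⟨b, hb⟩ : ∃ b, aeval g f - Polynomial.C γ * Polynomial.X = Polynomial.C b := by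
    have h5 := Polynomial.derivative_eq_zero.1 h3
    exact ⟨_, Polynomial.eq_C_of_natDegree_eq_zero h5⟩
  have h8 : aeval g f = Polynomial.C γ * Polynomial.X + Polynomial.C b := by
    rw [← hb]; ring
  have h9 := h4 t
  have h10 := h4 0
  rw [h8] at h9 h10
  simp only [Polynomial.eval_add, Polynomial.eval_C, Polynomial.eval_mul, Polynomial.eval_X,
    mul_zero, zero_add, zero_smul, add_zero] at h9 h10
  rw [← h9, ← h10]
  ring

/-- PROOF. Put `f0 = f` with `X i0` replaced by `0` and `X (i0.succAbove j)` by `X j`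
(`f0 ∈ PD A n D`). By `eval_transl` with `t = - z i0 / c i0`, for all `z`:
`f z = f0 (fun j => z (i0.succAbove j) - (c (i0.succAbove j) / c i0) * z i0) + (γ / c i0) * z i0`. -/
theorem descend {A : Submodule Qa ℂ} {n D : ℕ} {f : MvPolynomial (Fin (n + 1)) ℂ}
    (hf : f ∈ PD A (n + 1) D) (c : Fin (n + 1) → Qa) (γ : Qa)
    (h : ∑ i, C (c i : ℂ) * pderiv i f = C (γ : ℂ)) (i0 : Fin (n + 1)) (h0 : c i0 ≠ 0) :
    ∃ f0 ∈ PD A n D, ∀ z : Fin (n + 1) → ℂ, eval z f =
      eval (fun j => z (i0.succAbove j) - ((c (i0.succAbove j) / c i0 : Qa) : ℂ) * z i0) f0 +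
        ((γ / c i0 : Qa) : ℂ) * z i0 := by
  classical
  set f0 : MvPolynomial (Fin n) ℂ := ∑ s ∈ f.support, if s i0 = 0 then
    monomial (Finsupp.equivFunOnFinite.symm fun j => s (i0.succAbove j)) (coeff s f) else 0 with hf0
  have hmem : f0 ∈ PD A n D := by
    refine Submodule.sum_mem _ fun s hs => ?_
    split_ifs with h1
    · refine mem_PD.2 ⟨?_, fun a => ?_⟩
      · refine (totalDegree_monomial_le _ _).trans ?_
        refine le_trans ?_ ((le_totalDegree hs).trans hf.1)
        rw [Finsupp.sum_fintype _ _ (fun _ => rfl), Finsupp.sum_fintype _ _ (fun _ => rfl),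
          Fin.sum_univ_succAbove _ i0, h1, zero_add]
        exact le_of_eq (Finset.sum_congr rfl fun j _ => rfl)
      · rw [coeff_monomial]
        split_ifs
        · exact hf.2 s
        · exact A.zero_mem
    · exact Submodule.zero_mem _
  have hev : ∀ y : Fin n → ℂ, eval y f0 = eval (i0.insertNth (0 : ℂ) y) f := by
    intro y
    rw [eval_eq' (i0.insertNth (0 : ℂ) y) f, hf0, map_sum]
    refine Finset.sum_congr rfl fun s _ => ?_
    rw [Fin.prod_univ_succAbove _ i0, Fin.insertNth_apply_same]
    split_ifs with h1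
    · rw [eval_monomial, h1, pow_zero, one_mul, Finsupp.prod_fintype _ _ (fun _ => pow_zero _)]
      congr 1
      refine Finset.prod_congr rfl fun j _ => ?_
      rw [Fin.insertNth_apply_succAbove]
      rfl
    · rw [map_zero, zero_pow h1, zero_mul, mul_zero]
  refine ⟨f0, hmem, fun z => ?_⟩
  have hc : (c i0 : ℂ) ≠ 0 := by
    intro h1
    exact h0 (Subtype.ext h1)
  have h1 := eval_transl f (fun i => (c i : ℂ)) γ h z (-(z i0 / c i0))
  have h2 : z + (-(z i0 / (c i0 : ℂ))) • (fun i => (c i : ℂ)) =
      i0.insertNth (0 : ℂ) (fun j => z (i0.succAbove j) -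
        ((c (i0.succAbove j) / c i0 : Qa) : ℂ) * z i0) := by
    funext i
    rcases Fin.eq_self_or_eq_succAbove i0 i with rfl | ⟨j, rfl⟩
    · rw [Fin.insertNth_apply_same]
      simp only [Pi.add_apply, Pi.smul_apply, smul_eq_mul]
      field_simp
      ring
    · rw [Fin.insertNth_apply_succAbove]
      simp only [Pi.add_apply, Pi.smul_apply, smul_eq_mul]
      push_cast
      ring
  rw [h2, ← hev] at h1
  rw [h1]
  push_cast
  ring

/-- PROOF. `MvPolynomial.funext`: if `f0` is affine then so is `f`. -/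
theorem aff_of_descend {A : Submodule Qa ℂ} {n : ℕ} {f : MvPolynomial (Fin (n + 1)) ℂ}
    {f0 : MvPolynomial (Fin n) ℂ} (h0 : Aff A f0) (d : Fin n → Qa) (γ : Qa) (i0 : Fin (n + 1))
    (h : ∀ z : Fin (n + 1) → ℂ, eval z f =
      eval (fun j => z (i0.succAbove j) - (d j : ℂ) * z i0) f0 + (γ : ℂ) * z i0) : Aff A f := by
  obtain ⟨a, ha, α, rfl⟩ := h0
  refine ⟨a, ha, i0.insertNth (γ - ∑ j, α j * d j) α, ?_⟩
  apply MvPolynomial.funext
  intro z
  rw [h z]
  simp only [map_add, map_sum, map_mul, eval_C, eval_X]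
  rw [Fin.sum_univ_succAbove _ i0]
  simp only [Fin.insertNth_apply_same, Fin.insertNth_apply_succAbove]
  push_cast
  simp only [mul_sub, Finset.sum_sub_distrib, sub_mul, Finset.sum_mul, mul_assoc]
  ring

/-- Simple facts. PROOF. `a + ∑ α_i w_i = 0` gives an element of `A` in `X`. -/
theorem aff_zero {A X : Submodule Qa ℂ} (hAX : GoodA A X) {n : ℕ} {w : Fin n → ℂ}
    (hw : ∀ i, w i ∈ X) (hli : LinearIndependent Qa w) {f : MvPolynomial (Fin n) ℂ}
    (hf : Aff A f) (h0 : eval w f = 0) : f = 0 := by
  obtain ⟨a, ha, α, rfl⟩ := hf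
  simp only [map_add, map_sum, map_mul, eval_C, eval_X] at h0
  have h1 : ∑ i, (α i : ℂ) * w i ∈ X := by
    refine Submodule.sum_mem _ fun i _ => ?_
    exact X.smul_mem (α i) (hw i)
  have h2 : a ∈ X := by
    have h3 : a = - ∑ i, (α i : ℂ) * w i := eq_neg_of_add_eq_zero_left h0
    rw [h3]
    exact X.neg_mem h1
  have h3 : a = 0 := hAX a ha h2
  rw [h3, zero_add] at h0
  have h4 : ∀ i, α i = 0 := by
    have h5 := Fintype.linearIndependent_iff.1 hli α
    exact h5 h0
  rw [h3]
  simp [h4]

/-- PROOF. If `1 ∈ A` and `f` is not affine then the derivative `∑ c_i ∂_i f - γ` has smaller degree: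
a polynomial of total degree `≤ 1` whose linear coefficients ... is handled as follows: if
`f.totalDegree ≥ 1` use `totalDegree (pderiv i f) ≤ totalDegree f - 1` (`totalDegree_pderiv_le` or by
coefficients); a polynomial of degree `0` is affine. -/
theorem deriv_mem {A : Submodule Qa ℂ} (h1 : (1 : ℂ) ∈ A) {n D : ℕ}
    {f : MvPolynomial (Fin n) ℂ} (hf : f ∈ PD A n D) (hna : ¬ Aff A f) (c : Fin n → Qa) (γ : Qa) :
    (∑ i, C (c i : ℂ) * pderiv i f - C (γ : ℂ)) ∈ PD A n D ∧
      (∑ i, C (c i : ℂ) * pderiv i f - C (γ : ℂ)).totalDegree < f.totalDegree := by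
  classical
  have hpos : f.totalDegree ≠ 0 := by
    intro h0
    apply hna
    refine ⟨f.coeff 0, hf.2 0, 0, ?_⟩
    rw [totalDegree_eq_zero_iff_eq_C] at h0
    simpa using h0
  have hpd : ∀ i, (pderiv i f).totalDegree ≤ f.totalDegree - 1 := by
    intro i
    refine Finset.sup_le fun s hs => ?_
    rw [MvPolynomial.mem_support_iff, coeff_pderiv] at hs
    have h2 : s + Finsupp.single i 1 ∈ f.support := by
      rw [MvPolynomial.mem_support_iff]
      exact left_ne_zero_of_mul hs
    have h3 := le_totalDegree h2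
    rw [Finsupp.sum_fintype _ _ (fun _ => rfl)] at h3 ⊢
    simp only [Finsupp.add_apply, Finset.sum_add_distrib] at h3
    have h4 : ∑ j, (Finsupp.single i 1 : Fin n →₀ ℕ) j = 1 := by
      rw [← Finsupp.sum_fintype _ (fun _ e => e) (fun _ => rfl), Finsupp.sum_single_index rfl]
    omega
  have hlt : (∑ i, C (c i : ℂ) * pderiv i f - C (γ : ℂ)).totalDegree < f.totalDegree := by
    have h2 : (∑ i, C (c i : ℂ) * pderiv i f - C (γ : ℂ)).totalDegree ≤ f.totalDegree - 1 := by
      refine (totalDegree_sub _ _).trans (max_le ?_ (by simp))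
      refine totalDegree_finsetSum_le fun i _ => ?_
      refine (totalDegree_mul _ _).trans ?_
      rw [totalDegree_C, zero_add]
      exact hpd i
    omega
  refine ⟨mem_PD.2 ⟨hlt.le.trans hf.1, fun a => ?_⟩, hlt⟩
  rw [coeff_sub, coeff_sum]
  refine A.sub_mem (Submodule.sum_mem _ fun i _ => ?_) ?_
  · rw [coeff_C_mul, coeff_pderiv]
    have h2 : (c i : ℂ) * (coeff (a + Finsupp.single i 1) f * ((a i : ℂ) + 1)) =
        (c i * ((a i : Qa) + 1)) • coeff (a + Finsupp.single i 1) f := by
      rw [Algebra.smul_def]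
      have h3 : algebraMap Qa ℂ (c i * ((a i : Qa) + 1)) = (c i : ℂ) * ((a i : ℂ) + 1) := by
        rw [map_mul, map_add, map_one, map_natCast]
        rfl
      rw [h3]
      ring
    rw [h2]
    exact A.smul_mem _ (hf.2 _)
  · rw [coeff_C]
    split_ifs
    · have h2 : (γ : ℂ) = γ • (1 : ℂ) := by
        rw [Algebra.smul_def, mul_one]
        rfl
      rw [h2]
      exact A.smul_mem _ h1
    · exact A.zero_mem

end MP60829e.FC
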