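import Pool.Agent.Lib.MP_60829e_nt.FC.Defs

/-! # Dimension of the space of polynomials -/

open MvPolynomial Module

namespace MP60829e.FC

open MP60829e.ST (Qa Lsp Lt)

/-- the exponent of a symmetric power: the multiplicities of the first `n` letters -/
private noncomputable def dimExp {n D : ℕ} (s : Sym (Fin (n + 1)) D) : Fin n →₀ ℕ :=
  Finsupp.equivFunOnFinite.symm fun i => Multiset.count i.castSucc (s : Multiset (Fin (n + 1)))

private theorem dimExp_apply {n D : ℕ} (s : Sym (Fin (n + 1)) D) (i : Fin n) :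
    dimExp s i = Multiset.count i.castSucc (s : Multiset (Fin (n + 1))) := rfl

private theorem dimExp_degree {n D : ℕ} (s : Sym (Fin (n + 1)) D) :
    (dimExp s).sum (fun _ e => e) ≤ D := by
  classical
  rw [Finsupp.sum_fintype _ _ fun _ => rfl]
  simp only [dimExp_apply]
  have h1 : ∑ i : Fin (n + 1), Multiset.count i (s : Multiset (Fin (n + 1))) = D := by
    rw [Multiset.sum_count_eq_card fun a _ => Finset.mem_univ a]
    exact s.2
  rw [Fin.sum_univ_castSucc] at h1
  omega

private theorem dimExp_surj {n D : ℕ} (a : Fin n →₀ ℕ) (ha : a.sum (fun _ e => e) ≤ D) :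
    ∃ s : Sym (Fin (n + 1)) D, dimExp s = a := by
  classical
  rw [Finsupp.sum_fintype _ _ fun _ => rfl] at ha
  let M : Multiset (Fin (n + 1)) := (∑ i : Fin n, Multiset.replicate (a i) i.castSucc) +
    Multiset.replicate (D - ∑ i, a i) (Fin.last n)
  have hM : Multiset.card M = D := by
    have h1 : Multiset.card (∑ i : Fin n, Multiset.replicate (a i) i.castSucc) = ∑ i, a i := by
      rw [Multiset.card_sum]
      exact Finset.sum_congr rfl fun i _ => Multiset.card_replicate _ _
    have h2 : Multiset.card M = Multiset.card (∑ i : Fin n, Multiset.replicate (a i) i.castSucc) +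
        Multiset.card (Multiset.replicate (D - ∑ i, a i) (Fin.last n)) := Multiset.card_add _ _
    rw [h2, h1, Multiset.card_replicate]
    omega
  refine ⟨⟨M, hM⟩, ?_⟩
  ext i
  rw [dimExp_apply]
  show Multiset.count i.castSucc M = a i
  simp only [M, Multiset.count_add, Multiset.count_sum', Multiset.count_replicate]
  have h1 : (if Fin.last n = i.castSucc then D - ∑ i, a i else 0) = 0 :=
    if_neg (ne_of_gt (Fin.castSucc_lt_last i))
  rw [h1, add_zero, Finset.sum_eq_single i]
  · rw [if_pos rfl]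
  · intro j _ hj
    rw [if_neg]
    intro h
    exact hj (Fin.castSucc_injective n h)
  · intro h
    exact absurd (Finset.mem_univ i) h

private theorem dimCard (n D κ : ℕ) :
    Fintype.card (Fin κ × Sym (Fin (n + 1)) D) = κ * (n + D).choose n := by
  rw [Fintype.card_prod, Fintype.card_fin, Sym.card_sym_eq_multichoose, Fintype.card_fin,
    Nat.multichoose_eq]
  congr 1
  have h : n + 1 + D - 1 = n + D := by omega
  rw [h, Nat.choose_symm_add]

private theorem dimBasis (A : Submodule Qa ℂ) [FiniteDimensional Qa A] {κ : ℕ}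
    (hA : finrank Qa A ≤ κ) :
    ∃ b : Fin κ → ℂ, (∀ i, b i ∈ A) ∧ ∀ a ∈ A, a ∈ Submodule.span Qa (Set.range b) := by
  classical
  let B := finBasis Qa A
  let b : Fin κ → ℂ := fun i => if h : (i : ℕ) < finrank Qa A then (B ⟨i, h⟩ : ℂ) else 0
  refine ⟨b, fun i => ?_, fun a ha => ?_⟩
  · simp only [b]
    split_ifs with h
    · exact (B ⟨i, h⟩).2
    · exact A.zero_mem
  · have h1 : (⟨a, ha⟩ : A) = ∑ i, B.repr ⟨a, ha⟩ i • B i := (B.sum_repr _).symm
    have h2 : a = ∑ i, B.repr ⟨a, ha⟩ i • (B i : ℂ) := by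
      have h3 := congrArg (A.subtype) h1
      rw [map_sum] at h3
      simp only [map_smul] at h3
      exact h3
    rw [h2]
    refine Submodule.sum_mem _ fun i _ => Submodule.smul_mem _ _ ?_
    refine Submodule.subset_span ⟨⟨i, lt_of_lt_of_le i.2 hA⟩, ?_⟩
    simp only [b]
    rw [dif_pos i.2]

/-- PROOF. The monomials of degree `≤ D` in `n` variables (`choose (n + D) n` many) times a
basis of `A`; fill up with zeros. -/
theorem exists_gens (A : Submodule Qa ℂ) [FiniteDimensional Qa A] {κ : ℕ}
    (hA : finrank Qa A ≤ κ) (n D : ℕ) :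
    ∃ g : Fin (κ * (n + D).choose n) → MvPolynomial (Fin n) ℂ,
      (∀ q, g q ∈ PD A n D) ∧ ∀ f ∈ PD A n D, ∃ y : Fin (κ * (n + D).choose n) → Qa,
        f = ∑ q, y q • g q := by
  classical
  obtain ⟨b, hb, hbs⟩ := dimBasis A hA
  let e : Fin (κ * (n + D).choose n) ≃ Fin κ × Sym (Fin (n + 1)) D :=
    (Fintype.equivFinOfCardEq (dimCard n D κ)).symm
  let g0 : Fin κ × Sym (Fin (n + 1)) D → MvPolynomial (Fin n) ℂ :=
    fun p => monomial (dimExp p.2) (b p.1)
  have hg0 : ∀ p, g0 p ∈ PD A n D := by
    intro p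
    refine ⟨?_, fun a => ?_⟩
    · exact (totalDegree_monomial_le _ _).trans (dimExp_degree p.2)
    · simp only [g0, coeff_monomial]
      split_ifs
      · exact hb _
      · exact A.zero_mem
  refine ⟨fun q => g0 (e q), fun q => hg0 _, fun f hf => ?_⟩
  have hspan : f ∈ Submodule.span Qa (Set.range g0) := by
    rw [f.as_sum]
    refine Submodule.sum_mem _ fun a ha => ?_
    have hdeg : a.sum (fun _ e => e) ≤ D := (le_totalDegree ha).trans hf.1
    obtain ⟨s, hs⟩ := dimExp_surj a hdeg
    obtain ⟨y, hy⟩ := (Submodule.mem_span_range_iff_exists_fun Qa).1 (hbs _ (hf.2 a))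
    have h1 : monomial a (coeff a f) = ∑ i, y i • g0 (i, s) := by
      rw [← hy, map_sum]
      refine Finset.sum_congr rfl fun i _ => ?_
      simp only [g0, hs]
      have h2 : (y i • b i : ℂ) = (y i : ℂ) • b i := rfl
      have h3 : y i • monomial a (b i) = (y i : ℂ) • (monomial a (b i) : MvPolynomial (Fin n) ℂ) :=
        rfl
      rw [h2, h3, smul_monomial]
    rw [h1]
    exact Submodule.sum_mem _ fun i _ => Submodule.smul_mem _ _ (Submodule.subset_span ⟨_, rfl⟩)
  obtain ⟨y, hy⟩ := (Submodule.mem_span_range_iff_exists_fun Qa).1 hspan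
  refine ⟨fun q => y (e q), ?_⟩
  rw [← hy]
  exact (Equiv.sum_comp e fun p => y p • g0 p).symm

/-- The space of the values of the polynomials at a point. -/
theorem exists_vals (A : Submodule Qa ℂ) [FiniteDimensional Qa A] {κ : ℕ}
    (hA : finrank Qa A ≤ κ) (n D : ℕ) (w : Fin n → ℂ) :
    ∃ V : Submodule Qa ℂ, FiniteDimensional Qa V ∧ finrank Qa V ≤ κ * (n + D).choose n ∧
      ∀ f ∈ PD A n D, eval w f ∈ V := by
  obtain ⟨g, -, hg⟩ := exists_gens A hA n D
  refine ⟨Submodule.span Qa (Set.range fun q => eval w (g q)), ?_, ?_, fun f hf => ?_⟩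
  · exact FiniteDimensional.span_of_finite Qa (Set.finite_range _)
  · have h := finrank_range_le_card (R := Qa) (fun q => eval w (g q))
    rw [Fintype.card_fin] at h
    exact h
  · obtain ⟨y, hy⟩ := hg f hf
    rw [hy, map_sum]
    refine Submodule.sum_mem _ fun q _ => ?_
    have h1 : eval w (y q • g q) = y q • eval w (g q) := by
      have h2 : y q • g q = (y q : ℂ) • g q := rfl
      have h3 : y q • eval w (g q) = (y q : ℂ) * eval w (g q) := rfl
      rw [h2, h3, smul_eval]
    rw [h1]
    exact Submodule.smul_mem _ _ (Submodule.subset_span ⟨q, rfl⟩)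

theorem bd_mono {n n' D κ : ℕ} (h : n' ≤ n) : bd n' D κ ≤ bd n D κ := by
  unfold bd
  have h1 : (n' + D).choose n' ≤ (n + D).choose n := by
    rw [Nat.choose_symm_add, Nat.choose_symm_add]
    exact Nat.choose_le_choose D (by omega)
  have h2 : κ * (n' + D).choose n' ≤ κ * (n + D).choose n := Nat.mul_le_mul_left κ h1
  have h3 : (n' + 1) * (n' + 2) ≤ (n + 1) * (n + 2) := Nat.mul_le_mul (by omega) (by omega)
  omega

end MP60829e.FC
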