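import Pool.Agent.Lib.MP_60829e_nt.FC.Defs
import Pool.Agent.Lib.MP_60829e_nt.HP.Main

/-! # From the hyperplane theorem to `Tsp` -/

open MvPolynomial Module

namespace MP60829e.FC

open MP60829e.ST (Qa Lsp Lt)

private theorem smul_eq' (c : Qa) (z : ℂ) : c • z = (c : ℂ) * z := rfl

private theorem Lsp_le_Lt : Lsp ≤ Lt := by
  unfold ST.Lsp ST.Lt
  exact Submodule.span_mono Set.subset_union_right

private theorem mem_Lt' {x : ℂ} (hx : x ∈ Lt) : ∃ β : Qa, ∃ l ∈ Lsp, x = (β : ℂ) + l := by
  unfold ST.Lt at hx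
  rw [Submodule.span_union, Submodule.mem_sup] at hx
  obtain ⟨y, hy, l, hl, rfl⟩ := hx
  rw [Submodule.mem_span_singleton] at hy
  obtain ⟨β, rfl⟩ := hy
  refine ⟨β, l, hl, ?_⟩
  rw [smul_eq', mul_one]

/-- a basis modulo the constants -/
private theorem exists_h {n : ℕ} (g : Fin n → ℂ) : ∃ (e : ℕ) (h : Fin e → ℂ)
    (ρ : Fin n → Fin e → Qa) (γ : Fin n → Qa), e ≤ n ∧
    (∀ (c : Fin e → Qa) (d : Qa), ∑ s, (c s : ℂ) * h s + d = 0 → (∀ s, c s = 0) ∧ d = 0) ∧
    ∀ i, g i = ∑ s, (ρ i s : ℂ) * h s + γ i := by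
  classical
  set N : Submodule Qa ℂ := Submodule.span Qa {1} with hN
  set g' : Fin n → ℂ ⧸ N := fun i => N.mkQ (g i) with hg'
  set G : Submodule Qa (ℂ ⧸ N) := Submodule.span Qa (Set.range g') with hG
  have hfin : FiniteDimensional Qa G := FiniteDimensional.span_of_finite Qa (Set.finite_range g')
  let b := finBasis Qa G
  have hle : finrank Qa G ≤ n := by
    have := finrank_range_le_card (R := Qa) g'
    rw [Fintype.card_fin] at this
    exact this
  have hsurj : ∀ s, ∃ z : ℂ, N.mkQ z = (b s : ℂ ⧸ N) := fun s => N.mkQ_surjective _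
  choose h hh using hsurj
  have hmem : ∀ i, g' i ∈ G := fun i => Submodule.subset_span ⟨i, rfl⟩
  have hli : LinearIndependent Qa (fun s => (b s : ℂ ⧸ N)) :=
    b.linearIndependent.map' G.subtype (Submodule.ker_subtype G)
  have hrep : ∀ i, g i - ∑ s, b.repr ⟨g' i, hmem i⟩ s • h s ∈ N := by
    intro i
    rw [← Submodule.Quotient.mk_eq_zero, ← Submodule.mkQ_apply, map_sub, map_sum]
    have h1 := congrArg G.subtype (b.sum_repr ⟨g' i, hmem i⟩)
    rw [map_sum] at h1
    simp only [map_smul, Submodule.subtype_apply] at h1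
    simp only [map_smul, hh]
    rw [h1, sub_self]
  have hγ : ∀ i, ∃ γ : Qa, γ • (1 : ℂ) = g i - ∑ s, b.repr ⟨g' i, hmem i⟩ s • h s := fun i =>
    Submodule.mem_span_singleton.1 (hrep i)
  choose γ hγ using hγ
  refine ⟨finrank Qa G, h, fun i s => b.repr ⟨g' i, hmem i⟩ s, γ, hle, ?_, ?_⟩
  · intro c d hcd
    have h1 : ∑ s, c s • (b s : ℂ ⧸ N) = 0 := by
      have h2 : N.mkQ (∑ s, (c s : ℂ) * h s + d) = ∑ s, c s • (b s : ℂ ⧸ N) := by
        have h3 : N.mkQ (d : ℂ) = 0 := by
          rw [Submodule.mkQ_apply, Submodule.Quotient.mk_eq_zero, hN, Submodule.mem_span_singleton]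
          exact ⟨d, by rw [smul_eq', mul_one]⟩
        rw [map_add, h3, add_zero, map_sum]
        refine Finset.sum_congr rfl fun s _ => ?_
        rw [← smul_eq', map_smul, hh]
      rw [← h2, hcd, map_zero]
    have h4 := Fintype.linearIndependent_iff.1 hli c h1
    refine ⟨h4, ?_⟩
    have h5 : (d : ℂ) = 0 := by
      rw [← hcd]
      simp [h4]
    exact_mod_cast h5
  · intro i
    have h1 := hγ i
    rw [smul_eq', mul_one] at h1
    rw [h1]
    simp only [smul_eq']
    ring

/-- PROOF. Choose `h : Fin e → ℂ` such that `h` together with `1` is linearly independent over `Qa`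
and `g i = ∑ s, ρ i s • h s + γ i` (a basis of the span of the `g i` modulo `Qa`), `e ≤ n`. Then `u` kills
all `v` with `∑ i, v i * ρ i s = 0` for all `s`, so `u i = ∑ s, μ s * ρ i s` for some `μ`. For `T` as in `Tsp`
put `T' s = ∑ i, ρ i s • T i ∈ Lsp`: `∑ s, h s * T' s ∈ Lt` and `∑ i, u i • T i = ∑ s, μ s • T' s`. So `Tsp g u` is
in the image of `V = {(T', l) : T' s ∈ Lsp, ∑ s, h s * T' s - l = 0, l ∈ Lt}`. An element of `Lt` is `β + l'`,
`β ∈ Qa`, `l' ∈ Lsp`: the subspace `V0` of `V` with `l ∈ Lsp` is cut out by one linear condition (the quotient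
`Lt / Lsp` has dimension at most `1`), and `HP.hp` for `(h, -1) : Fin (e + 1) → ℂ` gives
`finrank V0 ≤ (e + 1) (e + 2)`. -/
theorem finrank_Tsp {n : ℕ} (g : Fin n → ℂ) (u : Fin n → Qa)
    (hu : ∀ v : Fin n → Qa, (∃ γ : Qa, ∑ i, v i • g i = (γ : ℂ)) → ∑ i, u i * v i = 0) :
    FiniteDimensional Qa (Tsp g u) ∧ finrank Qa (Tsp g u) ≤ (n + 1) * (n + 2) + 1 := by
  classical
  obtain ⟨e, h, ρ, γ, hen, hli, hg⟩ := exists_h g
  -- the coefficients `μ`
  obtain ⟨μ, hμ⟩ : ∃ μ : Fin e → Qa, ∀ i, u i = ∑ s, μ s * ρ i s := by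
    let Lm : Fin e → (Fin n → Qa) →ₗ[Qa] Qa := fun s => ∑ i, ρ i s • LinearMap.proj i
    let Km : (Fin n → Qa) →ₗ[Qa] Qa := ∑ i, u i • LinearMap.proj i
    have hLm : ∀ s v, Lm s v = ∑ i, ρ i s * v i := by
      intro s v
      simp [Lm, LinearMap.sum_apply]
    have hKm : ∀ v, Km v = ∑ i, u i * v i := by
      intro v
      simp [Km, LinearMap.sum_apply]
    have h1 : Km ∈ Submodule.span Qa (Set.range Lm) := by
      apply mem_span_of_iInf_ker_le_ker
      intro v hv
      rw [Submodule.mem_iInf] at hv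
      rw [LinearMap.mem_ker, hKm]
      apply hu v
      refine ⟨∑ i, v i * γ i, ?_⟩
      have h2 : ∀ s, ∑ i, (v i : ℂ) * (ρ i s : ℂ) = 0 := by
        intro s
        have h3 := hv s
        rw [LinearMap.mem_ker, hLm] at h3
        have h4 : ((∑ i, ρ i s * v i : Qa) : ℂ) = 0 := by rw [h3]; rfl
        push_cast at h4
        rw [← h4]
        exact Finset.sum_congr rfl fun i _ => mul_comm _ _
      push_cast
      calc ∑ i, v i • g i = ∑ i, (∑ s, (v i : ℂ) * (ρ i s : ℂ) * h s + (v i : ℂ) * (γ i : ℂ)) := by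
            refine Finset.sum_congr rfl fun i _ => ?_
            rw [smul_eq', hg i, mul_add, Finset.mul_sum]
            congr 1
            exact Finset.sum_congr rfl fun s _ => by ring
        _ = ∑ s, (∑ i, (v i : ℂ) * (ρ i s : ℂ)) * h s + ∑ i, (v i : ℂ) * (γ i : ℂ) := by
            rw [Finset.sum_add_distrib, Finset.sum_comm]
            congr 1
            exact Finset.sum_congr rfl fun s _ => by rw [Finset.sum_mul]
        _ = ∑ i, (v i : ℂ) * (γ i : ℂ) := by
            simp only [h2, zero_mul, Finset.sum_const_zero, zero_add]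
    rw [Submodule.mem_span_range_iff_exists_fun] at h1
    obtain ⟨μ, hμ⟩ := h1
    refine ⟨μ, fun i => ?_⟩
    have h2 := congrArg (fun f => f (Pi.single i 1)) hμ
    simp only [hKm, LinearMap.sum_apply, LinearMap.smul_apply, hLm, smul_eq_mul] at h2
    simp only [Pi.single_apply, mul_ite, mul_one, mul_zero, Finset.sum_ite_eq',
      Finset.mem_univ, if_true] at h2
    exact h2.symm
  -- the spaces
  set a : Fin (e + 1) → ℂ := Fin.snoc (α := fun _ => ℂ) h (-1) with ha
  have ha1 : ∀ s : Fin e, a s.castSucc = h s := fun s => by rw [ha, Fin.snoc_castSucc]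
  have ha2 : a (Fin.last e) = -1 := by rw [ha, Fin.snoc_last]
  let V : Submodule Qa (Fin (e + 1) → ℂ) :=
    { carrier := {v | (∀ s : Fin e, v s.castSucc ∈ Lsp) ∧ v (Fin.last e) ∈ Lt ∧
        ∑ i, a i * v i = 0}
      zero_mem' := ⟨fun _ => Lsp.zero_mem, Lt.zero_mem, by simp⟩
      add_mem' := by
        rintro v w ⟨h1, h2, h3⟩ ⟨h1', h2', h3'⟩
        refine ⟨fun s => Lsp.add_mem (h1 s) (h1' s), Lt.add_mem h2 h2', ?_⟩
        simp only [Pi.add_apply, mul_add, Finset.sum_add_distrib, h3, h3', add_zero]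
      smul_mem' := by
        rintro c v ⟨h1, h2, h3⟩
        refine ⟨fun s => Lsp.smul_mem c (h1 s), Lt.smul_mem c h2, ?_⟩
        simp only [Pi.smul_apply, mul_smul_comm, ← Finset.smul_sum, h3, smul_zero] }
  let V0 : Submodule Qa (Fin (e + 1) → ℂ) :=
    { carrier := {v | (∀ i, v i ∈ Lsp) ∧ ∑ i, a i * v i = 0}
      zero_mem' := ⟨fun _ => Lsp.zero_mem, by simp⟩
      add_mem' := by
        rintro v w ⟨h1, h3⟩ ⟨h1', h3'⟩
        refine ⟨fun s => Lsp.add_mem (h1 s) (h1' s), ?_⟩
        simp only [Pi.add_apply, mul_add, Finset.sum_add_distrib, h3, h3', add_zero]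
      smul_mem' := by
        rintro c v ⟨h1, h3⟩
        refine ⟨fun s => Lsp.smul_mem c (h1 s), ?_⟩
        simp only [Pi.smul_apply, mul_smul_comm, ← Finset.smul_sum, h3, smul_zero] }
  have hali : LinearIndependent Qa a := by
    rw [Fintype.linearIndependent_iff]
    intro c hc
    rw [Fin.sum_univ_castSucc] at hc
    simp only [ha1, ha2, smul_eq'] at hc
    have h1 := hli (fun s => c s.castSucc) (-c (Fin.last e)) (by
      push_cast
      rw [← hc]
      ring)
    intro i
    refine Fin.lastCases ?_ (fun s => ?_) i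
    · exact neg_eq_zero.1 h1.2
    · exact h1.1 s
  obtain ⟨hf0, hr0'⟩ := HP.hp a hali V0 (fun v hv => hv.1) (fun v hv => hv.2)
  have hr0 : finrank Qa V0 ≤ (e + 1) * (e + 2) := hr0'
  have hV : FiniteDimensional Qa V ∧ finrank Qa V ≤ (e + 1) * (e + 2) + 1 := by
    by_cases hall : V ≤ V0
    · refine ⟨Submodule.finiteDimensional_of_le hall, ?_⟩
      exact (Submodule.finrank_mono hall).trans (hr0.trans (by omega))
    · obtain ⟨w, hw, hw0⟩ := SetLike.not_le_iff_exists.1 hall
      obtain ⟨β, l, hl, hwl⟩ := mem_Lt' hw.2.1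
      have hβ : β ≠ 0 := by
        rintro rfl
        apply hw0
        refine ⟨fun i => ?_, hw.2.2⟩
        refine Fin.lastCases ?_ (fun s => ?_) i
        · rw [hwl]
          simpa using hl
        · exact hw.1 s
      have hle : V ≤ V0 ⊔ Submodule.span Qa {w} := by
        intro v hv
        obtain ⟨β', l', hl', hvl⟩ := mem_Lt' hv.2.1
        rw [Submodule.mem_sup]
        refine ⟨v - (β' / β) • w, ?_, (β' / β) • w, Submodule.smul_mem _ _
          (Submodule.mem_span_singleton_self w), by abel⟩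
        refine ⟨fun i => ?_, ?_⟩
        · refine Fin.lastCases ?_ (fun s => ?_) i
          · have h1 : (v - (β' / β) • w) (Fin.last e) = l' - (β' / β) • l := by
              rw [Pi.sub_apply, Pi.smul_apply, hvl, hwl, smul_add, smul_eq' (β' / β) (β : ℂ)]
              have h2 : ((β' / β : Qa) : ℂ) * (β : ℂ) = β' := by
                have h3 : (β' / β : Qa) * β = β' := div_mul_cancel₀ _ hβ
                exact_mod_cast congrArg (fun x : Qa => (x : ℂ)) h3
              rw [h2]
              ring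
            rw [h1]
            exact Lsp.sub_mem hl' (Lsp.smul_mem _ hl)
          · exact Lsp.sub_mem (hv.1 s) (Lsp.smul_mem _ (hw.1 s))
        · have h1 := hv.2.2
          have h2 := hw.2.2
          simp only [Pi.sub_apply, Pi.smul_apply, mul_sub, mul_smul_comm, Finset.sum_sub_distrib,
            ← Finset.smul_sum, h1, h2, smul_zero, sub_zero]
      have hfs : FiniteDimensional Qa (Submodule.span Qa {w}) :=
        FiniteDimensional.span_singleton Qa w
      have hfsup : FiniteDimensional Qa (V0 ⊔ Submodule.span Qa {w} : Submodule Qa _) :=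
        Submodule.finiteDimensional_sup _ _
      refine ⟨Submodule.finiteDimensional_of_le hle, ?_⟩
      have h1 := Submodule.finrank_mono hle
      have h2 := Submodule.finrank_add_le_finrank_add_finrank V0 (Submodule.span Qa {w})
      have h3 : finrank Qa (Submodule.span Qa {w}) ≤ 1 := by
        have := finrank_span_le_card (R := Qa) ({w} : Set (Fin (e + 1) → ℂ))
        simpa using this
      omega
  obtain ⟨hfV, hrV⟩ := hV
  -- the image
  let φ : (Fin (e + 1) → ℂ) →ₗ[Qa] ℂ := ∑ s : Fin e, μ s • LinearMap.proj s.castSucc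
  have hφ : ∀ v, φ v = ∑ s : Fin e, μ s • v s.castSucc := by
    intro v
    simp [φ, LinearMap.sum_apply]
  have hT : Tsp g u ≤ V.map φ := by
    rintro t ⟨T, hT1, hT2, rfl⟩
    set T' : Fin e → ℂ := fun s => ∑ i, ρ i s • T i with hT'
    have hTT : ∑ s, h s * T' s = ∑ i, g i * T i - ∑ i, γ i • T i := by
      calc ∑ s, h s * T' s = ∑ s, ∑ i, h s * ((ρ i s : ℂ) * T i) := by
            refine Finset.sum_congr rfl fun s _ => ?_
            rw [hT', Finset.mul_sum]
            rfl
        _ = ∑ i, ∑ s, h s * ((ρ i s : ℂ) * T i) := Finset.sum_comm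
        _ = ∑ i, (g i * T i - γ i • T i) := by
            refine Finset.sum_congr rfl fun i _ => ?_
            rw [smul_eq', hg i, ← sub_mul, add_sub_cancel_right, Finset.sum_mul]
            exact Finset.sum_congr rfl fun s _ => by ring
        _ = _ := by rw [Finset.sum_sub_distrib]
    refine ⟨Fin.snoc (α := fun _ => ℂ) T' (∑ s, h s * T' s), ⟨?_, ?_, ?_⟩, ?_⟩
    · intro s
      rw [Fin.snoc_castSucc]
      exact Lsp.sum_mem fun i _ => Lsp.smul_mem _ (hT1 i)
    · rw [Fin.snoc_last, hTT]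
      exact Lt.sub_mem hT2 (Lt.sum_mem fun i _ => Lt.smul_mem _ (Lsp_le_Lt (hT1 i)))
    · rw [Fin.sum_univ_castSucc]
      simp only [ha1, ha2, Fin.snoc_castSucc, Fin.snoc_last]
      ring
    · rw [hφ]
      simp only [Fin.snoc_castSucc, hT']
      simp only [hμ, smul_eq', Finset.mul_sum]
      rw [Finset.sum_comm]
      refine Finset.sum_congr rfl fun i _ => ?_
      push_cast
      rw [Finset.sum_mul]
      exact Finset.sum_congr rfl fun s _ => by ring
  have hfm : FiniteDimensional Qa (V.map φ) := inferInstance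
  refine ⟨Submodule.finiteDimensional_of_le hT, ?_⟩
  have h1 := Submodule.finrank_mono hT
  have h2 := Submodule.finrank_map_le φ V
  have h3 : (e + 1) * (e + 2) ≤ (n + 1) * (n + 2) := Nat.mul_le_mul (by omega) (by omega)
  omega

end MP60829e.FC
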