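import Pool.Agent.Lib.MP_60829e_nt.FC.Rec
import Pool.Agent.Lib.MP_60829e_nt.FC.Basis

/-! # Theorem Q -/

open MvPolynomial Module

namespace MP60829e.FC

open MP60829e.ST (Qa Lsp Lt)

/-- The linear map with given values at `lam j`. PROOF. Extend `lam` to a `ℚ`-basis of `ℂ`. -/
theorem exists_Phi {m : ℕ} (lam : ℕ → ℂ) (hli : LinearIndependent ℚ lam)
    (x : ℕ → Fin m → ℚ) : ∃ Φ : ℂ →ₗ[ℚ] (Fin m → ℚ), ∀ j, Φ (lam j) = x j := by
  obtain ⟨Φ, hΦ⟩ := LinearMap.exists_extend ((Basis.span hli).constr ℚ x)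
  refine ⟨Φ, fun j => ?_⟩
  have h1 : Φ ((Basis.span hli j : Submodule.span ℚ (Set.range lam)) : ℂ) = x j := by
    have h2 := congrArg (fun f => f (Basis.span hli j)) hΦ
    simp only [LinearMap.comp_apply, Submodule.subtype_apply] at h2
    rw [h2, Basis.constr_basis]
  rwa [Basis.span_apply] at h1

/-- PROOF. A finite family in the span of `{z | exp z algebraic, Φ z = 0}` is in some `Xr lam x r`: a
logarithm `z` with `Φ z = 0` is `∑ j < r, q j lam j` with `∑ q j x j = 0`; `Xr_mono`. -/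
theorem exists_r {m n : ℕ} (lam : ℕ → ℂ) (x : ℕ → Fin m → ℚ)
    (hspan : ∀ z : ℂ, IsAlgebraic ℚ (Complex.exp z) → z ∈ Submodule.span ℚ (Set.range lam))
    (Φ : ℂ →ₗ[ℚ] (Fin m → ℚ)) (hΦ : ∀ j, Φ (lam j) = x j) (w : Fin n → ℂ)
    (hw : ∀ i, w i ∈ Submodule.span Qa {z : ℂ | IsAlgebraic ℚ (Complex.exp z) ∧ Φ z = 0}) :
    ∃ r, ∀ i, w i ∈ Xr lam x r := by
  classical
  have key : ∀ z ∈ Submodule.span Qa {z : ℂ | IsAlgebraic ℚ (Complex.exp z) ∧ Φ z = 0},
      ∃ r, z ∈ Xr lam x r := by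
    intro z hz
    induction hz using Submodule.span_induction with
    | mem z hz =>
      obtain ⟨hz1, hz2⟩ := hz
      obtain ⟨c, hc⟩ := Finsupp.mem_span_range_iff_exists_finsupp.1 (hspan z hz1)
      obtain ⟨r, hr⟩ : ∃ r, ∀ j ∈ c.support, j < r :=
        ⟨c.support.sup id + 1, fun j hj => Nat.lt_succ_of_le (Finset.le_sup (f := id) hj)⟩
      have hz3 : z = ∑ j : Fin r, c j • lam j := by
        rw [← hc, Finsupp.sum, Finset.sum_subset (s₂ := Finset.range r)
          (fun j hj => Finset.mem_range.2 (hr j hj))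
          (fun j _ hj => by rw [Finsupp.notMem_support_iff.1 hj, zero_smul])]
        exact (Fin.sum_univ_eq_sum_range (fun j => c j • lam j) r).symm
      refine ⟨r, mem_Xr.2 ⟨fun j => ((c j : ℚ) : Qa), fun s => ?_, ?_⟩⟩
      · have h1 : ∑ j : Fin r, c j * x j s = 0 := by
          have h2 := congrArg (fun f => f s) hz2
          rw [hz3] at h2
          simpa [hΦ] using h2
        have h3 := congrArg (fun q : ℚ => (q : Qa)) h1
        push_cast at h3
        exact h3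
      · rw [hz3]
        refine Finset.sum_congr rfl fun j _ => ?_
        rw [Rat.smul_def, Algebra.smul_def]
        congr 1
    | zero => exact ⟨0, Submodule.zero_mem _⟩
    | add z z' _ _ hz hz' =>
      obtain ⟨r, hr⟩ := hz
      obtain ⟨r', hr'⟩ := hz'
      exact ⟨max r r', Submodule.add_mem _ (Xr_mono lam x (le_max_left _ _) hr)
        (Xr_mono lam x (le_max_right _ _) hr')⟩
    | smul q z _ hz =>
      obtain ⟨r, hr⟩ := hz
      exact ⟨r, Submodule.smul_mem _ _ hr⟩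
  choose r hr using fun i => key (w i) (hw i)
  exact ⟨Finset.univ.sup r, fun i => Xr_mono lam x (Finset.le_sup (Finset.mem_univ i)) (hr i)⟩

/-- Theorem Q. PROOF. `exists_lam`, `baker`, `exists_x` for `m = bd n D κ`, `exists_Phi`, `exists_r`,
`Good` at `r` (`n' = n`), `aff_zero`. -/
theorem main (A : Submodule Qa ℂ) [FiniteDimensional Qa A] (h1 : (1 : ℂ) ∈ A) (n D : ℕ) :
    ∃ Φ : ℂ →ₗ[ℚ] (Fin (bd n D (finrank Qa A)) → ℚ), ∀ w : Fin n → ℂ,
      (∀ i, w i ∈ Submodule.span Qa {z : ℂ | IsAlgebraic ℚ (Complex.exp z) ∧ Φ z = 0}) →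
      LinearIndependent Qa w → ∀ f ∈ PD A n D, eval w f ∈ Lt →
        Aff A f ∧ (eval w f = 0 → f = 0) := by
  obtain ⟨lam, halg, hli, hspan⟩ := exists_lam
  obtain ⟨x, hx⟩ := exists_x (A := A) (n := n) (D := D) le_rfl h1 le_rfl lam
    (baker lam halg hli) (fun j => Submodule.subset_span (halg j))
  obtain ⟨Φ, hΦ⟩ := exists_Phi lam hli x
  refine ⟨Φ, fun w hw hwli f hf hfL => ?_⟩
  obtain ⟨r, hr⟩ := exists_r lam x hspan Φ hΦ w hw
  have h2 := (hx r).2 n le_rfl w hr hwli f hf hfL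
  exact ⟨h2, fun h0 => aff_zero (hx r).1 hr hwli h2 h0⟩

end MP60829e.FC
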