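import Pool.Agent.Lib.MP_60829e_nt.FC.Count
import Pool.Agent.Lib.MP_60829e_nt.FC.HpT
import Pool.Agent.Lib.MP_60829e_nt.FC.Descend
import Pool.Agent.Lib.MP_60829e_nt.FC.Dim

/-! # The contradiction at a generic point -/

open MvPolynomial Module

namespace MP60829e.FC

open MP60829e.ST (Qa Lsp Lt)

/-- The coefficient vector of the last number is in `R`.
PROOF. `R = {v | ∃ γ : Qa, ∑ i, v i • g i = γ}` is a subspace, `g i = eval w (pderiv i f)`,
`w = TV.pt lam M`. If `c ∉ R` take `u` from `exists_sep`; `finrank_Tsp`, `exists_vals`, `count_le`: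
`m ≤ κ * choose + (n + 1) (n + 2) + 1 < bd n D κ ≤ m`. -/
theorem direction {A : Submodule Qa ℂ} [FiniteDimensional Qa A] {κ m n D r : ℕ}
    (hA : finrank Qa A ≤ κ) (hm : bd n D κ ≤ m) (lam : Fin (r + 1) → ℂ)
    (hlam : LinearIndependent Qa lam) (hlog : ∀ j, lam j ∈ Lsp) (x : Fin (r + 1) → Fin m → ℚ)
    (M : Fin n × Fin (r + 1) → Qa) (f : MvPolynomial (Fin n) ℂ)
    (h : ∀ ψ : Fin m → Qa, ∃ T : Fin n × Fin (r + 1) → Qa, ∃ h ∈ PD A n D,
      (∀ i s, ∑ j, T (i, j) * ((x j s : ℚ) : Qa) = -(ψ s * M (i, Fin.last r))) ∧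
      ∑ i, eval (TV.pt lam M) (pderiv i f) * TV.pt lam T i + eval (TV.pt lam M) h ∈ Lt) :
    ∃ γ : Qa, ∑ i, M (i, Fin.last r) • eval (TV.pt lam M) (pderiv i f) = (γ : ℂ) := by
  classical
  obtain ⟨g, hg⟩ : ∃ g : Fin n → ℂ, g = fun i => eval (TV.pt lam M) (pderiv i f) := ⟨_, rfl⟩
  have hgi : ∀ i, eval (TV.pt lam M) (pderiv i f) = g i := fun i => by rw [hg]
  simp only [hgi] at h ⊢
  let R : Submodule Qa (Fin n → Qa) :=
    { carrier := {v | ∃ γ : Qa, ∑ i, v i • g i = (γ : ℂ)}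
      zero_mem' := ⟨0, by simp⟩
      add_mem' := by
        rintro v v' ⟨γ, hγ⟩ ⟨γ', hγ'⟩
        refine ⟨γ + γ', ?_⟩
        simp only [Pi.add_apply, add_smul, Finset.sum_add_distrib, hγ, hγ']
        rfl
      smul_mem' := by
        rintro q v ⟨γ, hγ⟩
        refine ⟨q * γ, ?_⟩
        simp only [Pi.smul_apply, smul_eq_mul, mul_smul, ← Finset.smul_sum, hγ]
        rfl }
  have hR : ∀ v : Fin n → Qa, v ∈ R ↔ ∃ γ : Qa, ∑ i, v i • g i = (γ : ℂ) := fun v => Iff.rfl
  by_contra hc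
  obtain ⟨u, hu, huc⟩ := exists_sep R (fun i => M (i, Fin.last r)) (fun h => hc ((hR _).1 h))
  obtain ⟨hfin, hs⟩ := finrank_Tsp g u (fun v hv => hu v ((hR v).2 hv))
  obtain ⟨V, hVf, hV, hVe⟩ := exists_vals A hA n D (TV.pt lam M)
  have h2 := count_le lam hlam hlog x g u (fun i => M (i, Fin.last r)) huc V hV hfin hs (by
    intro ψ
    obtain ⟨T, p, hp, hT1, hT2⟩ := h ψ
    exact ⟨T, eval (TV.pt lam M) p, hVe p hp, hT1, hT2⟩)
  unfold bd at hm
  omega

/-- PROOF. `direction` gives `γ`; `f' = ∑ c_i ∂_i f - γ` is in `PD A n D`, vanishes at `w`, has smaller degree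
(`deriv_mem`), so it is affine (`hmin`), so zero (`aff_zero`, `hGA`; `w i ∈ Xr lam x (r + 1)` by `hM`).
If all `c i = 0` then `w i ∈ Xr lam x r` (drop the last coordinate) and `hgood n` gives `Aff A f`. Otherwise
`n = n' + 1`, `c i0 ≠ 0`: `descend`; the numbers `w' j = w (i0.succAbove j) - (c_j / c_i0) w i0` are in
`Xr lam x r` (last coordinate zero), independent, `eval w' f0 = eval w f - (γ / c i0) w i0 ∈ Lt`
(`w i0 ∈ Lsp ≤ Lt`), so `f0` is affine (`hgood n'`), and `aff_of_descend`. -/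
theorem point {A : Submodule Qa ℂ} [FiniteDimensional Qa A] {κ m n D r : ℕ}
    (hA : finrank Qa A ≤ κ) (h1 : (1 : ℂ) ∈ A) (hm : bd n D κ ≤ m) (lam : ℕ → ℂ)
    (hlam : LinearIndependent Qa lam) (hlog : ∀ j, lam j ∈ Lsp) (x : ℕ → Fin m → ℚ)
    (hGA : GoodA A (Xr lam x (r + 1))) (hgood : ∀ n' ≤ n, GoodN A n' D (Xr lam x r))
    (M : Fin n × Fin (r + 1) → Qa)
    (hM : ∀ i s, ∑ j : Fin (r + 1), M (i, j) * ((x j s : ℚ) : Qa) = 0)
    (hli : LinearIndependent Qa (TV.pt (fun j : Fin (r + 1) => lam j) M))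
    (f : MvPolynomial (Fin n) ℂ) (hf : f ∈ PD A n D)
    (hfL : eval (TV.pt (fun j : Fin (r + 1) => lam j) M) f ∈ Lt)
    (hmin : ∀ f' ∈ PD A n D, eval (TV.pt (fun j : Fin (r + 1) => lam j) M) f' ∈ Lt →
      ¬ Aff A f' → f.totalDegree ≤ f'.totalDegree)
    (h : ∀ ψ : Fin m → Qa, ∃ T : Fin n × Fin (r + 1) → Qa, ∃ h ∈ PD A n D,
      (∀ i s, ∑ j : Fin (r + 1), T (i, j) * ((x j s : ℚ) : Qa) = -(ψ s * M (i, Fin.last r))) ∧
      ∑ i, eval (TV.pt (fun j : Fin (r + 1) => lam j) M) (pderiv i f) *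
        TV.pt (fun j : Fin (r + 1) => lam j) T i +
          eval (TV.pt (fun j : Fin (r + 1) => lam j) M) h ∈ Lt) : Aff A f := by
  classical
  by_contra hna
  obtain ⟨γ, hγ⟩ := direction hA hm (fun j : Fin (r + 1) => lam j)
    (hlam.comp _ Fin.val_injective) (fun j => hlog j) (fun j : Fin (r + 1) => x j) M f h
  obtain ⟨w, hw⟩ : ∃ w : Fin n → ℂ, w = TV.pt (fun j : Fin (r + 1) => lam j) M := ⟨_, rfl⟩
  rw [← hw] at hγ hli hfL hmin
  clear h
  obtain ⟨c, hc⟩ : ∃ c : Fin n → Qa, c = fun i => M (i, Fin.last r) := ⟨_, rfl⟩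
  have hwi : ∀ i, w i = ∑ j : Fin (r + 1), M (i, j) • lam j := fun i => by rw [hw]; rfl
  have hwi' : ∀ i, w i = (∑ j : Fin r, M (i, j.castSucc) • lam j) + c i • lam r := by
    intro i
    rw [hwi, Fin.sum_univ_castSucc, hc]
    rfl
  have hMi : ∀ i s, ∑ j : Fin r, M (i, j.castSucc) * ((x j s : ℚ) : Qa) =
      -(c i * ((x r s : ℚ) : Qa)) := by
    intro i s
    have h2 := hM i s
    rw [Fin.sum_univ_castSucc] at h2
    rw [hc]
    simp only [Fin.val_castSucc, Fin.val_last] at h2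
    exact eq_neg_of_add_eq_zero_left h2
  have hX : ∀ i, w i ∈ Xr lam x (r + 1) := fun i =>
    mem_Xr.2 ⟨fun j => M (i, j), fun s => hM i s, hwi i⟩
  -- the derivative
  obtain ⟨hd1, hd2⟩ := deriv_mem h1 hf hna c γ
  obtain ⟨f', hf'⟩ : ∃ f' : MvPolynomial (Fin n) ℂ,
      f' = ∑ i, C (c i : ℂ) * pderiv i f - C (γ : ℂ) := ⟨_, rfl⟩
  rw [← hf'] at hd1 hd2
  have hev : eval w f' = 0 := by
    rw [hf', map_sub, map_sum, eval_C, sub_eq_zero, ← hγ, hc]
    refine Finset.sum_congr rfl fun i _ => ?_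
    rw [map_mul, eval_C]
    rfl
  have haff : Aff A f' := by
    by_contra hn
    have h2 := hmin f' hd1 (by rw [hev]; exact Lt.zero_mem) hn
    omega
  have hz : f' = 0 := aff_zero hGA hX hli haff hev
  have hder : ∑ i, C (c i : ℂ) * pderiv i f = C (γ : ℂ) := by
    rw [hf'] at hz
    exact sub_eq_zero.1 hz
  have hLL : Lsp ≤ Lt := Submodule.span_mono Set.subset_union_right
  by_cases hall : ∀ i, c i = 0
  · apply hna
    refine hgood n le_rfl w (fun i => mem_Xr.2 ⟨fun j => M (i, j.castSucc), fun s => ?_, ?_⟩)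
      hli f hf hfL
    · rw [hMi, hall i, zero_mul, neg_zero]
    · rw [hwi' i, hall i, zero_smul, add_zero]
  · push Not at hall
    obtain ⟨i0, hi0⟩ := hall
    cases n with
    | zero => exact i0.elim0
    | succ n =>
      obtain ⟨f0, hf0, hfe⟩ := descend hf c γ hder i0 hi0
      obtain ⟨d, hd⟩ : ∃ d : Fin n → Qa, d = fun j => c (i0.succAbove j) / c i0 := ⟨_, rfl⟩
      have hdc : ∀ j, d j * c i0 = c (i0.succAbove j) := by
        intro j
        rw [hd]
        exact div_mul_cancel₀ _ hi0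
      obtain ⟨w', hw'⟩ : ∃ w' : Fin n → ℂ, w' = fun j => w (i0.succAbove j) - d j • w i0 :=
        ⟨_, rfl⟩
      have hfe' : ∀ z : Fin (n + 1) → ℂ, eval z f =
          eval (fun j => z (i0.succAbove j) - (d j : ℂ) * z i0) f0 +
            ((γ / c i0 : Qa) : ℂ) * z i0 := by
        intro z
        rw [hfe z, hd]
      have hev2 : eval w f = eval w' f0 + (γ / c i0 : Qa) • w i0 := by
        rw [hfe' w, hw']
        rfl
      have hw0 : w i0 ∈ Lsp := by
        rw [hwi i0]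
        exact Submodule.sum_mem _ fun j _ => Lsp.smul_mem _ (hlog j)
      apply hna
      refine aff_of_descend ?_ d (γ / c i0) i0 hfe'
      refine hgood n (Nat.le_succ n) w' (fun j => mem_Xr.2 ⟨fun t => M (i0.succAbove j, t.castSucc) -
        d j * M (i0, t.castSucc), fun s => ?_, ?_⟩) ?_ f0 hf0 ?_
      · simp only [sub_mul, mul_assoc, Finset.sum_sub_distrib, ← Finset.mul_sum, hMi]
        rw [← hdc j]
        ring
      · rw [hw']
        simp only [sub_smul, mul_smul, Finset.sum_sub_distrib, ← Finset.smul_sum]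
        rw [hwi' (i0.succAbove j), hwi' i0, ← hdc j, smul_add, mul_smul]
        abel
      · rw [Fintype.linearIndependent_iff]
        intro b hb j
        rw [Fintype.linearIndependent_iff] at hli
        have h3 := hli (i0.insertNth (-∑ j, b j * d j) b) (by
          rw [Fin.sum_univ_succAbove _ i0]
          simp only [Fin.insertNth_apply_same, Fin.insertNth_apply_succAbove]
          rw [hw'] at hb
          simp only [smul_sub, Finset.sum_sub_distrib, ← mul_smul, ← Finset.sum_smul] at hb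
          rw [neg_smul, neg_add_eq_sub]
          exact hb) (i0.succAbove j)
        rwa [Fin.insertNth_apply_succAbove] at h3
      · have h4 : eval w' f0 = eval w f - (γ / c i0 : Qa) • w i0 := by
          rw [hev2, add_sub_cancel_right]
        rw [h4]
        exact Lt.sub_mem hfL (Lt.smul_mem _ (hLL hw0))

end MP60829e.FC
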