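import Pool.Agent.Lib.MP_60829e_nt.FC.Smooth
import Pool.Agent.Lib.MP_60829e_nt.TV.Grid

/-! # The relation `f (M lam) ∈ L` and its derivative -/

open MvPolynomial Module

namespace MP60829e.FC

open MP60829e.ST (Qa Lsp Lt)

private theorem ev_rename {K R : Type} [Field K] [CommRing R] [Algebra K R] {σ τ : Type}
    (f : σ → τ) (c : τ → K) (p : MvPolynomial σ R) :
    TV.ev c (rename f p) = TV.ev (fun s => c (f s)) p := by
  induction p using MvPolynomial.induction_on with
  | C a => rw [rename_C, TV.ev_C, TV.ev_C]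
  | add p q hp hq => rw [map_add, map_add, map_add, hp, hq]
  | mul_X p i hp => rw [map_mul, TV.ev_mul, TV.ev_mul, hp, rename_X, TV.ev_X, TV.ev_X]

private theorem dv_rename {K R : Type} [Field K] [CommRing R] [Algebra K R] {σ τ : Type}
    [Fintype σ] [Fintype τ] (f : σ → τ) (c v : τ → K) (p : MvPolynomial σ R) :
    TV.dv c v (rename f p) = TV.dv (fun s => c (f s)) (fun s => v (f s)) p := by
  induction p using MvPolynomial.induction_on with
  | C a => rw [rename_C, TV.dv_C, TV.dv_C]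
  | add p q hp hq => rw [map_add, TV.dv_add, TV.dv_add, hp, hq]
  | mul_X p i hp =>
    rw [map_mul, TV.dv_mul, TV.dv_mul, hp, rename_X, TV.dv_X, TV.dv_X, ev_rename, TV.ev_X,
      TV.ev_X]

private theorem ev_eq_eval {K : Type} [Field K] {σ : Type} (c : σ → K) (p : MvPolynomial σ K) :
    TV.ev c p = eval c p := by
  induction p using MvPolynomial.induction_on with
  | C a => rw [TV.ev_C, eval_C]
  | add p q hp hq => rw [map_add, map_add, hp, hq]
  | mul_X p i hp =>
    rw [TV.ev_mul, hp, TV.ev_X, map_mul, eval_X]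
    rfl

private theorem dv_eq_sum {K : Type} [Field K] {σ : Type} [Fintype σ] (c v : σ → K)
    (p : MvPolynomial σ K) : TV.dv c v p = ∑ s, v s * eval c (pderiv s p) := by
  unfold TV.dv
  exact Finset.sum_congr rfl fun s _ => by rw [ev_eq_eval, smul_eq_mul]

/-- `∑ q, Y q * (g q) (M lam)`. -/
noncomputable def GG {n r N : ℕ} (lam : Fin r → ℂ) (g : Fin N → MvPolynomial (Fin n) ℂ) :
    MvPolynomial ((Fin n × Fin r) ⊕ Fin N) ℂ :=
  ∑ q, X (Sum.inr q) * rename Sum.inl (TV.sub lam (g q))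

/-- PROOF. `TV.ev_mul`, `TV.ev_X`, `TV.ev_sub`; `TV.ev` of a renamed polynomial. -/
theorem ev_GG {n r N : ℕ} (lam : Fin r → ℂ) (g : Fin N → MvPolynomial (Fin n) ℂ)
    (M : Fin n × Fin r → Qa) (y : Fin N → Qa) :
    TV.ev (Sum.elim M y) (GG lam g) = eval (TV.pt lam M) (∑ q, y q • g q) := by
  unfold GG
  rw [map_sum, map_sum]
  refine Finset.sum_congr rfl fun q _ => ?_
  have h1 : y q • g q = ((y q : Qa) : ℂ) • g q := rfl
  rw [TV.ev_mul, TV.ev_X, Sum.elim_inr, ev_rename, h1, smul_eval, ← TV.ev_sub]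
  rfl

/-- PROOF. `TV.dv_mul`, `TV.dv_X`, `TV.dv_sub` (chain rule), `TV.dv_sum`; `TV.dv` of a renamed
polynomial. -/
theorem dv_GG {n r N : ℕ} (lam : Fin r → ℂ) (g : Fin N → MvPolynomial (Fin n) ℂ)
    (M T : Fin n × Fin r → Qa) (y h : Fin N → Qa) :
    TV.dv (Sum.elim M y) (Sum.elim T h) (GG lam g) =
      ∑ i, eval (TV.pt lam M) (pderiv i (∑ q, y q • g q)) * TV.pt lam T i +
        eval (TV.pt lam M) (∑ q, h q • g q) := by
  have h1 : ∀ q, TV.dv (Sum.elim M y) (Sum.elim T h)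
      (X (Sum.inr q) * rename Sum.inl (TV.sub lam (g q)) :
        MvPolynomial ((Fin n × Fin r) ⊕ Fin N) ℂ) =
      ((h q : Qa) : ℂ) * eval (TV.pt lam M) (g q) +
        ((y q : Qa) : ℂ) * ∑ i, eval (TV.pt lam M) (pderiv i (g q)) * TV.pt lam T i := by
    intro q
    rw [TV.dv_mul, TV.dv_X, TV.ev_X, Sum.elim_inr, Sum.elim_inr, ev_rename, dv_rename,
      ← TV.ev_sub, ← TV.dv_sub]
    rfl
  unfold GG
  rw [TV.dv_sum, Finset.sum_congr rfl fun q _ => h1 q, Finset.sum_add_distrib, add_comm]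
  have h2 : ∀ (z : Fin N → Qa), eval (TV.pt lam M) (∑ q, z q • g q) =
      ∑ q, ((z q : Qa) : ℂ) * eval (TV.pt lam M) (g q) := by
    intro z
    rw [map_sum]
    refine Finset.sum_congr rfl fun q _ => ?_
    have h3 : z q • g q = ((z q : Qa) : ℂ) • g q := rfl
    rw [h3, smul_eval]
  have h4 : ∀ i, eval (TV.pt lam M) (pderiv i (∑ q, y q • g q)) =
      ∑ q, ((y q : Qa) : ℂ) * eval (TV.pt lam M) (pderiv i (g q)) := by
    intro i
    rw [map_sum, map_sum]
    refine Finset.sum_congr rfl fun q _ => ?_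
    have h3 : y q • g q = ((y q : Qa) : ℂ) • g q := rfl
    rw [h3, Derivation.map_smul, smul_eval]
  rw [h2]
  congr 1
  simp only [h4, Finset.sum_mul, Finset.mul_sum]
  rw [Finset.sum_comm]
  exact Finset.sum_congr rfl fun i _ => Finset.sum_congr rfl fun q _ => by ring

/-- PROOF. `TV.exists_forms` for `L` and the finite set of the coefficients of `G` and of its partial
derivatives (exactly as in the proof of `TV.grid_count`), `P j = TV.star (φ j) G`, `TV.eval_star`,
`TV.dv_star`, `TV.ev_mem`. -/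
theorem forms {τ : Type} [Fintype τ] (L : Submodule Qa ℂ) (G : MvPolynomial τ ℂ) :
    ∃ (q : ℕ) (P : Fin q → MvPolynomial τ Qa),
      (∀ c : τ → Qa, TV.ev c G ∈ L → ∀ j, eval c (P j) = 0) ∧
      ∀ c v : τ → Qa, (∀ j, ∑ s, v s * eval c (pderiv s (P j)) = 0) → TV.dv c v G ∈ L := by
  classical
  obtain ⟨Z, hZ⟩ : ∃ Z : Finset ℂ, Z = (G.support.image fun a => coeff a G) ∪
      (Finset.univ.biUnion fun s => (pderiv s G).support.image fun a =>
        coeff a (pderiv s G)) := ⟨_, rfl⟩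
  obtain ⟨q, φ, hφL, hφ⟩ := TV.exists_forms L Z
  have hc2 : ∀ s a, coeff a (pderiv s G) ∈ Submodule.span Qa (Z : Set ℂ) := by
    intro s a
    by_cases ha : coeff a (pderiv s G) = 0
    · rw [ha]
      exact Submodule.zero_mem _
    · apply Submodule.subset_span
      rw [hZ, Finset.mem_coe, Finset.mem_union]
      right
      rw [Finset.mem_biUnion]
      exact ⟨s, Finset.mem_univ _, Finset.mem_image.2 ⟨a, mem_support_iff.2 ha, rfl⟩⟩
  refine ⟨q, fun j => TV.star (φ j) G, ?_, ?_⟩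
  · intro c hc j
    rw [TV.eval_star]
    exact hφL j _ hc
  · intro c v h
    refine hφ _ (Submodule.mem_sup_right ?_) fun j => ?_
    · unfold TV.dv
      exact Submodule.sum_mem _ fun s _ => Submodule.smul_mem _ _ (TV.ev_mem c _ _ (hc2 s))
    · rw [← TV.dv_star]
      exact h j

/-- The generic point. `M a` are the coefficients of the tuple, `y a` those of the polynomial; the
values of the functional at `lam j`, `j < r`, are fixed, the value at `lam r` is `a`.
PROOF. `smooth` for `τ = (Fin n × Fin (r + 1)) ⊕ Fin N` and the polynomials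
`∑ j < r, C (x j s) X (inr (inl (i, j))) + X (inl s) X (inr (inl (i, last)))` and
`rename Sum.inr (P j)`, `P` from `forms`, `ev_GG`, `dv_GG`. -/
theorem generic_point {m n r N : ℕ} (U : Ultrafilter (Fin m → ℚ)) (hU : Gen U)
    (L : Submodule Qa ℂ) (lam : Fin (r + 1) → ℂ) (g : Fin N → MvPolynomial (Fin n) ℂ)
    (x : ℕ → Fin m → ℚ) (M : (Fin m → ℚ) → Fin n × Fin (r + 1) → Qa)
    (y : (Fin m → ℚ) → Fin N → Qa)
    (h1 : ∀ᶠ a in (U : Filter (Fin m → ℚ)), ∀ i s,
      ∑ j : Fin (r + 1), M a (i, j) * ((Function.update x r a j s : ℚ) : Qa) = 0)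
    (h2 : ∀ᶠ a in (U : Filter (Fin m → ℚ)), eval (TV.pt lam (M a)) (∑ q, y a q • g q) ∈ L) :
    ∀ᶠ a in (U : Filter (Fin m → ℚ)), ∀ ψ : Fin m → Qa,
      ∃ (T : Fin n × Fin (r + 1) → Qa) (h : Fin N → Qa),
        (∀ i s, ∑ j : Fin (r + 1), T (i, j) * ((Function.update x r a j s : ℚ) : Qa) =
          -(ψ s * M a (i, Fin.last r))) ∧
        ∑ i, eval (TV.pt lam (M a)) (pderiv i (∑ q, y a q • g q)) * TV.pt lam T i +
          eval (TV.pt lam (M a)) (∑ q, h q • g q) ∈ L := by
  classical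
  obtain ⟨q, P', hP1, hP2⟩ := forms L (GG lam g)
  -- the equations
  let P : (Fin n × Fin m) ⊕ Fin q → MvPolynomial (Fin m ⊕ ((Fin n × Fin (r + 1)) ⊕ Fin N)) Qa :=
    Sum.elim (fun p => ∑ j : Fin r, C ((x j p.2 : ℚ) : Qa) *
        X (Sum.inr (Sum.inl (p.1, j.castSucc))) +
        X (Sum.inl p.2) * X (Sum.inr (Sum.inl (p.1, Fin.last r))))
      (fun j => rename Sum.inr (P' j))
  have hup : ∀ (a : Fin m → ℚ) (c : Fin (r + 1) → Qa) (s : Fin m),
      ∑ j : Fin (r + 1), c j * ((Function.update x r a j s : ℚ) : Qa) =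
        ∑ j : Fin r, ((x j s : ℚ) : Qa) * c j.castSucc + ((a s : ℚ) : Qa) * c (Fin.last r) := by
    intro a c s
    rw [Fin.sum_univ_castSucc]
    congr 1
    · refine Finset.sum_congr rfl fun j _ => ?_
      rw [Function.update_of_ne (by
        rw [Fin.val_castSucc]
        exact (Fin.is_lt j).ne), Fin.val_castSucc, mul_comm]
    · rw [Fin.val_last, Function.update_self, mul_comm]
  have h3 : ∀ᶠ a in (U : Filter (Fin m → ℚ)), ∀ j,
      eval (Sum.elim (fun s => ((a s : ℚ) : Qa)) (Sum.elim (M a) (y a))) (P j) = 0 := by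
    filter_upwards [h1, h2] with a ha1 ha2
    rintro (⟨i, s⟩ | j)
    · have h4 := ha1 i s
      rw [hup a (fun j => M a (i, j)) s] at h4
      rw [← h4]
      simp only [P, Sum.elim_inl, map_add, map_sum, map_mul, eval_C, eval_X, Sum.elim_inr]
    · have h4 : TV.ev (Sum.elim (M a) (y a)) (GG lam g) ∈ L := by
        rw [ev_GG]
        exact ha2
      have h5 := hP1 _ h4 j
      rw [← h5]
      simp only [P, Sum.elim_inr]
      rw [← ev_eq_eval, ev_rename, ev_eq_eval]
      rfl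
  have h4 := smooth U hU P (fun a => Sum.elim (M a) (y a)) h3
  filter_upwards [h4] with a ha ψ
  obtain ⟨η, hη⟩ := ha ψ
  have hη' : ∀ j, TV.dv (Sum.elim (fun s => ((a s : ℚ) : Qa)) (Sum.elim (M a) (y a)))
      (Sum.elim ψ η) (P j) = 0 := by
    intro j
    rw [dv_eq_sum, Fintype.sum_sum_type]
    exact hη j
  refine ⟨fun p => η (Sum.inl p), fun j => η (Sum.inr j), fun i s => ?_, ?_⟩
  · have h5 := hη' (Sum.inl (i, s))
    simp only [P, Sum.elim_inl] at h5
    rw [TV.dv_add, TV.dv_sum, TV.dv_mul, TV.dv_X, TV.dv_X, TV.ev_X, TV.ev_X] at h5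
    simp only [TV.dv_mul, TV.dv_C, TV.ev_C, TV.dv_X, Sum.elim_inl, Sum.elim_inr, zero_mul,
      zero_add, Algebra.algebraMap_self, RingHom.id_apply] at h5
    rw [hup a (fun j => η (Sum.inl (i, j))) s]
    linear_combination h5
  · have h5 : TV.dv (Sum.elim (M a) (y a)) η (GG lam g) ∈ L := by
      refine hP2 _ _ fun j => ?_
      have h6 := hη' (Sum.inr j)
      simp only [P, Sum.elim_inr] at h6
      rw [dv_rename, dv_eq_sum] at h6
      exact h6
    have h6 : η = Sum.elim (fun p => η (Sum.inl p)) (fun j => η (Sum.inr j)) := by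
      funext t
      rcases t with t | t <;> rfl
    rw [h6, dv_GG] at h5
    exact h5

end MP60829e.FC
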