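import Pool.Agent.Lib.MP_60829e_nt.FC.Step

/-! # The recursion -/

open MvPolynomial Module

namespace MP60829e.FC

open MP60829e.ST (Qa Lsp Lt)

private theorem xr_zero {lam : ℕ → ℂ} {m : ℕ} {x : ℕ → Fin m → ℚ} {z : ℂ}
    (hz : z ∈ Xr lam x 0) : z = 0 := by
  obtain ⟨c, _, rfl⟩ := mem_Xr.1 hz
  simp

/-- PROOF. `Xr lam x 0 = ⊥`: an independent family in `⊥` is empty, a polynomial in no variables is a
constant of `A`. -/
theorem good_zero (A : Submodule Qa ℂ) (n D : ℕ) (lam : ℕ → ℂ) {m : ℕ} (x : ℕ → Fin m → ℚ) :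
    Good A n D (Xr lam x 0) := by
  refine ⟨fun a _ ha => xr_zero ha, fun n' _ w hw hli f hf _ => ?_⟩
  have he : IsEmpty (Fin n') := ⟨fun i => hli.ne_zero i (xr_zero (hw i))⟩
  refine ⟨coeff 0 f, (mem_PD.1 hf).2 0, fun _ => 0, ?_⟩
  rw [Finset.univ_eq_empty, Finset.sum_empty, add_zero]
  exact MvPolynomial.eq_C_of_isEmpty f

private theorem xr_congr (lam : ℕ → ℂ) {m : ℕ} {x y : ℕ → Fin m → ℚ} {r : ℕ}
    (h : ∀ j, j < r → x j = y j) : Xr lam x r = Xr lam y r := by
  ext z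
  rw [mem_Xr, mem_Xr]
  have e : ∀ c : Fin r → Qa, ∀ s, ∑ j, c j * ((x j s : ℚ) : Qa) = ∑ j, c j * ((y j s : ℚ) : Qa) :=
    fun c s => Finset.sum_congr rfl fun j _ => by rw [h j j.2]
  constructor
  · rintro ⟨c, hc, hz⟩
    exact ⟨c, fun s => by rw [← e]; exact hc s, hz⟩
  · rintro ⟨c, hc, hz⟩
    exact ⟨c, fun s => by rw [e]; exact hc s, hz⟩

/-- PROOF. Recursion: `x_0 = 0`, `x_(r+1) = update x_r r a` with `a` from `step`; the limit `x r = x_(r+1) r`
agrees with `x_r` below `r`, and `Xr lam x r` only depends on the values below `r`. -/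
theorem exists_x {A : Submodule Qa ℂ} [FiniteDimensional Qa A] {κ m n D : ℕ}
    (hA : finrank Qa A ≤ κ) (h1 : (1 : ℂ) ∈ A) (hm : bd n D κ ≤ m) (lam : ℕ → ℂ)
    (hlam : LinearIndependent Qa lam) (hlog : ∀ j, lam j ∈ Lsp) :
    ∃ x : ℕ → Fin m → ℚ, ∀ r, Good A n D (Xr lam x r) := by
  classical
  let S : ℕ → Type := fun r => {x : ℕ → Fin m → ℚ // Good A n D (Xr lam x r)}
  let nxt : (r : ℕ) → S r → S (r + 1) := fun r y =>
    ⟨Function.update y.1 r (step hA h1 hm lam hlam hlog y.1 y.2).choose,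
      (step hA h1 hm lam hlam hlog y.1 y.2).choose_spec⟩
  let F : (r : ℕ) → S r := fun r => Nat.rec (motive := S) ⟨0, good_zero A n D lam 0⟩ nxt r
  have hF : ∀ r, F (r + 1) = nxt r (F r) := fun r => rfl
  have hlt : ∀ r j, j < r → (F (r + 1)).1 j = (F r).1 j := by
    intro r j hj
    rw [hF]
    exact Function.update_of_ne hj.ne _ _
  have key : ∀ r j, j < r → (F r).1 j = (F (j + 1)).1 j := by
    intro r
    induction r with
    | zero => intro j hj; exact absurd hj (Nat.not_lt_zero j)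
    | succ r ih =>
      intro j hj
      rcases Nat.lt_succ_iff_lt_or_eq.1 hj with h | h
      · rw [hlt r j h]
        exact ih j h
      · rw [h]
  refine ⟨fun r => (F (r + 1)).1 r, fun r => ?_⟩
  have h := (F r).2
  rwa [xr_congr lam (key r)] at h

end MP60829e.FC
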