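import Pool.Agent.Lib.MP_60829e_nt.FC.Defs
import Pool.Agent.Lib.MP_60829e_nt.FC.Gen

/-! # Generic smoothness -/

open MvPolynomial Module

namespace MP60829e.FC

open MP60829e.ST (Qa Lsp Lt)

/-- Generic smoothness: a family of solutions over almost all rational points `a` can be
differentiated in every direction at almost all `a`.
PROOF. `K = (U : Filter _).Germ Qa` is a field of characteristic zero, an algebra over `Qa` (constant
germs). `Y s = (the germ of a ↦ a s)` is an algebraically independent family over `Qa` (`hU`; the value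
of a polynomial at germs is the germ of the values, induction on the polynomial). For `s` there is a
derivation `D` of `K` over `Qa` with `D (Y s') = if s' = s then 1 else 0`
(`MP60829e.PS.exists_derivation_of_algebraicIndependent`). Apply `D` to `aeval (Y, y) (P j) = 0`
(chain rule, induction on the polynomial, or `Derivation.mkDerivation`-like lemmas):
`aeval (∂_s P_j) + ∑ t, aeval (∂_t P_j) * D (y t) = 0` in `K`. Choose representatives `η s t` of
`D (y t)`; so for almost all `a` the identity holds at `a` (`J`, `Fin m` finite). For general `ψ` take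
`∑ s, ψ s * η s t a`. -/
theorem smooth {m : ℕ} {τ J : Type} [Fintype τ] [Finite J] (U : Ultrafilter (Fin m → ℚ))
    (hU : Gen U) (P : J → MvPolynomial (Fin m ⊕ τ) Qa) (y : (Fin m → ℚ) → τ → Qa)
    (h : ∀ᶠ a in (U : Filter (Fin m → ℚ)), ∀ j,
      eval (Sum.elim (fun s => ((a s : ℚ) : Qa)) (y a)) (P j) = 0) :
    ∀ᶠ a in (U : Filter (Fin m → ℚ)), ∀ ψ : Fin m → Qa, ∃ η : τ → Qa, ∀ j,
      ∑ s, ψ s * eval (Sum.elim (fun s => ((a s : ℚ) : Qa)) (y a)) (pderiv (Sum.inl s) (P j)) +
        ∑ t, η t * eval (Sum.elim (fun s => ((a s : ℚ) : Qa)) (y a))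
          (pderiv (Sum.inr t) (P j)) = 0 :=
  gs U hU P y h

end MP60829e.FC
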