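import Pool.Agent.Lib.MP_60829e_nt.FC.Defs
import Pool.Agent.Lib.MP_60829e_nt.FC.Gen

/-! # A generic ultrafilter on the rational points -/

open MvPolynomial Module

namespace MP60829e.FC

open MP60829e.ST (Qa Lsp Lt)

/-- PROOF. The sets `{a | eval a P ≠ 0}`, `P ≠ 0`, are closed under finite intersections (products:
`MvPolynomial (Fin m) Qa` is a domain) and nonempty: a polynomial which vanishes at all rational
points is zero (`MvPolynomial.funext_set` or induction; `ℚ` is infinite in `Qa`). So they generate a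
filter `F ≠ ⊥`; `U = Ultrafilter.of F`. -/
theorem exists_gen (m : ℕ) : ∃ U : Ultrafilter (Fin m → ℚ), Gen U := by
  classical
  have hinj : Function.Injective (fun q : ℚ => ((q : ℚ) : Qa)) := Rat.cast_injective
  have hB : ∀ P : MvPolynomial (Fin m) Qa, P ≠ 0 →
      ∃ a ∈ (Set.univ : Set (Fin m → ℚ)), eval (fun s => ((a s : ℚ) : Qa)) P ≠ 0 := by
    intro P hP
    by_contra hcon
    push Not at hcon
    apply hP
    refine MvPolynomial.funext_set (fun _ => Set.range fun q : ℚ => ((q : ℚ) : Qa))
      (fun _ => Set.infinite_range_of_injective hinj) ?_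
    intro x hx
    have hx' : ∀ i, ∃ q : ℚ, ((q : ℚ) : Qa) = x i := fun i => hx i (Set.mem_univ i)
    choose q hq using hx'
    have h1 := hcon q (Set.mem_univ _)
    have h2 : (fun s => ((q s : ℚ) : Qa)) = x := funext hq
    rw [h2] at h1
    rw [h1, map_zero]
  obtain ⟨U, -, hU⟩ := exists_ultra (fun (a : Fin m → ℚ) s => ((a s : ℚ) : Qa)) Set.univ hB
  exact ⟨U, hU⟩

end MP60829e.FC
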