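import Pool.Agent.Lib.MP_60829e_nt.FC.StepA
import Pool.Agent.Lib.MP_60829e_nt.FC.Point
import Pool.Agent.Lib.MP_60829e_nt.FC.Poly
import Pool.Agent.Lib.MP_60829e_nt.FC.Ultra

/-! # The column step -/

open MvPolynomial Module

namespace MP60829e.FC

open MP60829e.ST (Qa Lsp Lt)

/-- The data of a bad tuple, with a polynomial of minimal degree. -/
private theorem Step_bad {A : Submodule Qa ℂ} {m n D r N : ℕ} (lam : ℕ → ℂ)
    (x : ℕ → Fin m → ℚ) (g : Fin N → MvPolynomial (Fin n) ℂ)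
    (hg : ∀ f ∈ PD A n D, ∃ y : Fin N → Qa, f = ∑ q, y q • g q)
    (h : ¬ GoodN A n D (Xr lam x (r + 1))) :
    ∃ (M : Fin n × Fin (r + 1) → Qa) (y : Fin N → Qa),
      (∀ i s, ∑ j : Fin (r + 1), M (i, j) * ((x j s : ℚ) : Qa) = 0) ∧
      LinearIndependent Qa (TV.pt (fun j : Fin (r + 1) => lam j) M) ∧
      (∑ q, y q • g q) ∈ PD A n D ∧
      eval (TV.pt (fun j : Fin (r + 1) => lam j) M) (∑ q, y q • g q) ∈ Lt ∧
      ¬ Aff A (∑ q, y q • g q) ∧
      ∀ f' ∈ PD A n D, eval (TV.pt (fun j : Fin (r + 1) => lam j) M) f' ∈ Lt →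
        ¬ Aff A f' → (∑ q, y q • g q).totalDegree ≤ f'.totalDegree := by
  classical
  unfold GoodN at h
  push Not at h
  obtain ⟨w, hw, hli, f0, hf0, hf0L, hf0a⟩ := h
  choose c hc hwc using fun i => mem_Xr.1 (hw i)
  obtain ⟨M, hM⟩ : ∃ M : Fin n × Fin (r + 1) → Qa, M = fun p => c p.1 p.2 := ⟨_, rfl⟩
  have hpt : TV.pt (fun j : Fin (r + 1) => lam j) M = w := by
    funext i
    rw [hwc i, hM]
    rfl
  have hex : ∃ d, ∃ f ∈ PD A n D, eval w f ∈ Lt ∧ ¬ Aff A f ∧ f.totalDegree = d :=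
    ⟨_, f0, hf0, hf0L, hf0a, rfl⟩
  obtain ⟨f, hf, hfL, hfa, hfd⟩ := Nat.find_spec hex
  obtain ⟨y, hy⟩ := hg f hf
  refine ⟨M, y, ?_, ?_, ?_, ?_, ?_, ?_⟩
  · intro i s
    rw [hM]
    exact hc i s
  · rw [hpt]
    exact hli
  · rw [← hy]
    exact hf
  · rw [← hy, hpt]
    exact hfL
  · rw [← hy]
    exact hfa
  · intro f' hf' hf'L hf'a
    rw [← hy, hfd]
    rw [hpt] at hf'L
    exact Nat.find_min' hex ⟨f', hf', hf'L, hf'a, rfl⟩

/-- PROOF. Otherwise (`Ultrafilter.eventually_not`) almost all `a` are bad: there are a tuple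
`w = TV.pt lam (M a)` in `Xr lam (update x r a) (r + 1)` (so `∑ j, M (i, j) * update .. j s = 0`), independent, and
a polynomial `f a ∈ PD A n D`, `eval w f ∈ Lt`, not affine; choose `f a` of minimal total degree among all
such polynomials for this `w` (`Nat.find` or `WellFounded.min`); `f a = ∑ q, y a q • g q` with `exists_gens`.
For the other `a` put `0`. `generic_point` with `L = Lt`; take an `a` in the intersection of the sets of `U`
(bad, `stepA`, `generic_point`) and apply `point` with `x = update x r a` (`Xr_update`,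
`∑ q, h q • g q ∈ PD A n D`): `f a` is affine, contradiction. -/
theorem stepN {A : Submodule Qa ℂ} [FiniteDimensional Qa A] {κ m n D r : ℕ}
    (hA : finrank Qa A ≤ κ) (h1 : (1 : ℂ) ∈ A) (hm : bd n D κ ≤ m) (lam : ℕ → ℂ)
    (hlam : LinearIndependent Qa lam) (hlog : ∀ j, lam j ∈ Lsp) (x : ℕ → Fin m → ℚ)
    (U : Ultrafilter (Fin m → ℚ)) (hU : Gen U)
    (hGA : ∀ᶠ a in (U : Filter (Fin m → ℚ)), GoodA A (Xr lam (Function.update x r a) (r + 1)))
    (hgood : ∀ n' ≤ n, GoodN A n' D (Xr lam x r)) :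
    ∀ᶠ a in (U : Filter (Fin m → ℚ)), GoodN A n D (Xr lam (Function.update x r a) (r + 1)) := by
  classical
  by_contra hcon
  rw [← Ultrafilter.eventually_not] at hcon
  obtain ⟨g, hgP, hg⟩ := exists_gens A hA n D
  have hdata : ∀ a : Fin m → ℚ, ∃ (M : Fin n × Fin (r + 1) → Qa)
      (y : Fin (κ * (n + D).choose n) → Qa),
      ¬ GoodN A n D (Xr lam (Function.update x r a) (r + 1)) →
      (∀ i s, ∑ j : Fin (r + 1), M (i, j) * ((Function.update x r a j s : ℚ) : Qa) = 0) ∧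
      LinearIndependent Qa (TV.pt (fun j : Fin (r + 1) => lam j) M) ∧
      (∑ q, y q • g q) ∈ PD A n D ∧
      eval (TV.pt (fun j : Fin (r + 1) => lam j) M) (∑ q, y q • g q) ∈ Lt ∧
      ¬ Aff A (∑ q, y q • g q) ∧
      ∀ f' ∈ PD A n D, eval (TV.pt (fun j : Fin (r + 1) => lam j) M) f' ∈ Lt →
        ¬ Aff A f' → (∑ q, y q • g q).totalDegree ≤ f'.totalDegree := by
    intro a
    by_cases ha : GoodN A n D (Xr lam (Function.update x r a) (r + 1))
    · exact ⟨0, 0, fun h => absurd ha h⟩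
    · obtain ⟨M, y, h⟩ := Step_bad lam (Function.update x r a) g hg ha
      exact ⟨M, y, fun _ => h⟩
  choose M y hMy using hdata
  have hgp := generic_point U hU Lt (fun j : Fin (r + 1) => lam j) g x M y
    (hcon.mono fun a ha => (hMy a ha).1) (hcon.mono fun a ha => (hMy a ha).2.2.2.1)
  obtain ⟨a, ha, hGAa, hgpa⟩ := (hcon.and (hGA.and hgp)).exists
  obtain ⟨hM, hli, hfP, hfL, hfa, hmin⟩ := hMy a ha
  apply hfa
  refine point hA h1 hm lam hlam hlog (Function.update x r a) hGAa ?_ (M a) hM hli _ hfP hfL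
    hmin ?_
  · intro n' hn'
    rw [Xr_update]
    exact hgood n' hn'
  · intro ψ
    obtain ⟨T, h, hT, hTh⟩ := hgpa ψ
    exact ⟨T, ∑ q, h q • g q, Submodule.sum_mem _ fun q _ => Submodule.smul_mem _ _ (hgP q),
      hT, hTh⟩

/-- PROOF. `exists_gen`, `stepA` (`κ ≤ m`: `choose (n + D) n ≥ 1`), `stepN` for all `n' ≤ n` (`bd_mono`,
finitely many: `Filter.eventually_all_finite` or induction), an element of the intersection. -/
theorem step {A : Submodule Qa ℂ} [FiniteDimensional Qa A] {κ m n D r : ℕ}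
    (hA : finrank Qa A ≤ κ) (h1 : (1 : ℂ) ∈ A) (hm : bd n D κ ≤ m) (lam : ℕ → ℂ)
    (hlam : LinearIndependent Qa lam) (hlog : ∀ j, lam j ∈ Lsp) (x : ℕ → Fin m → ℚ)
    (hgood : Good A n D (Xr lam x r)) :
    ∃ a : Fin m → ℚ, Good A n D (Xr lam (Function.update x r a) (r + 1)) := by
  obtain ⟨U, hU⟩ := exists_gen m
  have hκ : κ ≤ m := by
    refine le_trans ?_ hm
    have h2 : 1 ≤ (n + D).choose n := Nat.choose_pos (Nat.le_add_right n D)
    have h3 : κ * 1 ≤ κ * (n + D).choose n := Nat.mul_le_mul_left κ h2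
    unfold bd
    omega
  have hA' := stepA hA hκ lam hlam x hgood.1 U hU
  have hN : ∀ᶠ a in (U : Filter (Fin m → ℚ)), ∀ n' ∈ Set.Iic n,
      GoodN A n' D (Xr lam (Function.update x r a) (r + 1)) := by
    rw [Filter.eventually_all_finite (Set.finite_Iic n)]
    intro n' hn'
    exact stepN hA h1 ((bd_mono hn').trans hm) lam hlam hlog x U hU hA'
      fun n'' hn'' => hgood.2 n'' (hn''.trans hn')
  obtain ⟨a, ha, ha'⟩ := (hA'.and hN).exists
  exact ⟨a, ha, fun n' hn' => ha' n' hn'⟩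

end MP60829e.FC
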