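import Pool.Agent.Lib.MP_60829e_nt.FC.Defs

/-! # The intersection with `A` stays zero -/

open MvPolynomial Module

namespace MP60829e.FC

open MP60829e.ST (Qa Lsp Lt)

/-- `Xr` at `r` does not see the value at `lam r`. PROOF. `j < r` implies `j ≠ r`. -/
theorem Xr_update (lam : ℕ → ℂ) {m : ℕ} (x : ℕ → Fin m → ℚ) (r : ℕ) (a : Fin m → ℚ) :
    Xr lam (Function.update x r a) r = Xr lam x r := by
  have h : ∀ j : Fin r, Function.update x r a j = x j := fun j =>
    Function.update_of_ne (ne_of_lt j.2) _ _
  ext z
  rw [mem_Xr, mem_Xr]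
  simp only [h]

/-- PROOF. Extend the coefficients by zero. -/
theorem Xr_mono (lam : ℕ → ℂ) {m : ℕ} (x : ℕ → Fin m → ℚ) {r r' : ℕ} (h : r ≤ r') :
    Xr lam x r ≤ Xr lam x r' := by
  induction r', h using Nat.le_induction with
  | base => exact le_rfl
  | succ r' _ ih =>
    refine ih.trans ?_
    rintro z ⟨c, hc, rfl⟩
    refine ⟨Fin.snoc (α := fun _ => Qa) c 0, fun s => ?_, ?_⟩
    · rw [Fin.sum_univ_castSucc]
      simp only [Fin.snoc_castSucc, Fin.snoc_last, zero_mul, add_zero, Fin.val_castSucc]
      exact hc s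
    · rw [Fin.sum_univ_castSucc]
      simp only [Fin.snoc_castSucc, Fin.snoc_last, zero_smul, add_zero, Fin.val_castSucc]

/-- PROOF. `E = A ⊓ span (lam 0, ..., lam r)`, `π : E → Qa` the coefficient of `lam r`, `φ0 : E → (Fin m → Qa)`
the value `∑ j < r, c j x j` of the first coefficients. If `π = 0` on `E` then every `a` works (`hGA`).
Otherwise choose `e ∈ E` with `π e = 1`; `φ0 (ker π)` has dimension `≤ κ - 1 < m`, so there is a linear form
`u ≠ 0` on `Fin m → Qa` vanishing on it. If `z ∈ E` is in `Xr lam (update x r a) (r + 1)` and `π z = q ≠ 0`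
then, dividing by `q`, `a = - φ0 (e + z')` with `z' ∈ ker π`, so `u a = - u (φ0 e)`: the polynomial
`∑ s, C (u s) X s + C (u (φ0 e))` is nonzero and vanishes at `a`; by `hU` this does not happen for almost
all `a`. If `π z = 0` then `z ∈ Xr lam x r` and `hGA`. -/
theorem stepA {A : Submodule Qa ℂ} [FiniteDimensional Qa A] {κ m r : ℕ}
    (hA : finrank Qa A ≤ κ) (hm : κ ≤ m) (lam : ℕ → ℂ) (hlam : LinearIndependent Qa lam)
    (x : ℕ → Fin m → ℚ) (hGA : GoodA A (Xr lam x r)) (U : Ultrafilter (Fin m → ℚ))
    (hU : Gen U) :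
    ∀ᶠ a in (U : Filter (Fin m → ℚ)), GoodA A (Xr lam (Function.update x r a) (r + 1)) := by
  classical
  -- the combinations
  let comb : (Fin (r + 1) → Qa) →ₗ[Qa] ℂ :=
    Fintype.linearCombination Qa (fun j : Fin (r + 1) => lam j)
  have hcomb : ∀ c, comb c = ∑ j, c j • lam j := fun c => by
    simp only [comb, Fintype.linearCombination_apply]
  have hinj : Function.Injective comb := by
    have h1 : LinearIndependent Qa (fun j : Fin (r + 1) => lam j) :=
      hlam.comp (fun j : Fin (r + 1) => (j : ℕ)) Fin.val_injective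
    rw [Fintype.linearIndependent_iff] at h1
    rw [injective_iff_map_eq_zero]
    intro c hc
    rw [hcomb] at hc
    funext j
    exact h1 c hc j
  let E : Submodule Qa (Fin (r + 1) → Qa) := A.comap comb
  let φ0 : (Fin (r + 1) → Qa) →ₗ[Qa] (Fin m → Qa) :=
    { toFun := fun c s => ∑ j : Fin r, c j.castSucc * ((x j s : ℚ) : Qa)
      map_add' := fun c d => by
        funext s
        simp only [Pi.add_apply, add_mul, Finset.sum_add_distrib]
      map_smul' := fun q c => by
        funext s
        simp only [Pi.smul_apply, smul_eq_mul, mul_assoc, RingHom.id_apply, Finset.mul_sum] }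
  have hφ0 : ∀ c s, φ0 c s = ∑ j : Fin r, c j.castSucc * ((x j s : ℚ) : Qa) := fun c s => rfl
  -- the unfolding of the condition
  have key : ∀ a : Fin m → ℚ, ∀ z ∈ A, z ∈ Xr lam (Function.update x r a) (r + 1) →
      ∃ c ∈ E, z = comb c ∧ ∀ s, φ0 c s + c (Fin.last r) * ((a s : ℚ) : Qa) = 0 := by
    rintro a z hz ⟨c, hc, rfl⟩
    refine ⟨c, ?_, (hcomb c).symm, fun s => ?_⟩
    · rw [Submodule.mem_comap, hcomb]
      exact hz
    · have h1 := hc s
      rw [Fin.sum_univ_castSucc] at h1
      rw [hφ0]
      rw [← h1]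
      congr 1
      · refine Finset.sum_congr rfl fun j _ => ?_
        have h2 : Function.update x r a ((j.castSucc : Fin (r + 1)) : ℕ) = x j :=
          Function.update_of_ne (ne_of_lt j.2) _ _
        rw [h2]
      · have h2 : Function.update x r a ((Fin.last r : Fin (r + 1)) : ℕ) = a := by
          rw [Fin.val_last, Function.update_self]
        rw [h2]
  have hzero : ∀ c ∈ E, c (Fin.last r) = 0 → (∀ s, φ0 c s = 0) → comb c = 0 := by
    intro c hc h0 h1
    refine hGA _ hc ⟨fun j => c j.castSucc, h1, ?_⟩
    rw [hcomb, Fin.sum_univ_castSucc, h0, zero_smul, add_zero]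
    rfl
  by_cases hπ : ∃ e ∈ E, e (Fin.last r) = 1
  · obtain ⟨e, heE, he1⟩ := hπ
    let K0 : Submodule Qa (Fin (r + 1) → Qa) := E ⊓ LinearMap.ker (LinearMap.proj (Fin.last r))
    have hK0 : K0 < E := by
      refine lt_of_le_of_ne inf_le_left fun h1 => ?_
      have h2 : e ∈ K0 := h1 ▸ heE
      have h3 : e (Fin.last r) = 0 := h2.2
      rw [he1] at h3
      exact one_ne_zero h3
    have hEA : finrank Qa E ≤ finrank Qa A := by
      let g : E →ₗ[Qa] A := (comb.domRestrict E).codRestrict A fun c => c.2
      refine LinearMap.finrank_le_finrank_of_injective (f := g) ?_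
      intro c d hcd
      apply Subtype.ext
      apply hinj
      exact congrArg Subtype.val hcd
    have hlt : finrank Qa (K0.map φ0) < finrank Qa (Fin m → Qa) := by
      have h1 := Submodule.finrank_lt_finrank_of_lt hK0
      have h2 := Submodule.finrank_map_le φ0 K0
      rw [finrank_fin_fun]
      omega
    have hne : K0.map φ0 < ⊤ := by
      rw [lt_top_iff_ne_top]
      intro h1
      rw [h1, finrank_top] at hlt
      exact lt_irrefl _ hlt
    obtain ⟨u, hu, hku⟩ := Submodule.exists_le_ker_of_lt_top _ hne
    have huv : ∀ v : Fin m → Qa, u v = ∑ s, v s * u (Pi.single s 1) := by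
      intro v
      have h1 := LinearMap.pi_apply_eq_sum_univ u v
      rw [h1]
      refine Finset.sum_congr rfl fun s _ => ?_
      rw [smul_eq_mul]
      congr 2
      funext i
      rw [Pi.single_apply]
      simp only [eq_comm]
    let P : MvPolynomial (Fin m) Qa :=
      ∑ s, C (u (Pi.single s 1)) * X s + C (u (φ0 e))
    have hP : P ≠ 0 := by
      intro h1
      apply hu
      have h2 : ∀ s, u (Pi.single s 1) = 0 := by
        intro s
        have h3 := congrArg (coeff (Finsupp.single s 1)) h1
        simp only [P, coeff_add, coeff_sum, coeff_C_mul, coeff_X, coeff_C, coeff_zero] at h3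
        rw [if_neg (by
          intro h4
          have h5 := DFunLike.congr_fun h4 s
          simp at h5), add_zero] at h3
        rw [Finset.sum_eq_single s] at h3
        · rw [if_pos rfl, mul_one] at h3
          exact h3
        · intro i _ his
          rw [if_neg, mul_zero]
          intro h4
          exact his (Finsupp.single_left_injective one_ne_zero h4)
        · intro h4
          exact absurd (Finset.mem_univ s) h4
      ext v
      simp [h2]
    filter_upwards [hU P hP] with a ha
    intro z hz hzX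
    obtain ⟨c, hcE, rfl, hc⟩ := key a z hz hzX
    by_cases hq : c (Fin.last r) = 0
    · refine hzero c hcE hq fun s => ?_
      have h1 := hc s
      rwa [hq, zero_mul, add_zero] at h1
    · exfalso
      apply ha
      set q := c (Fin.last r) with hqdef
      -- `c / q - e` is in `K0`
      have h1 : q⁻¹ • c - e ∈ K0 := by
        refine ⟨E.sub_mem (E.smul_mem _ hcE) heE, ?_⟩
        rw [SetLike.mem_coe, LinearMap.mem_ker, LinearMap.proj_apply, Pi.sub_apply, Pi.smul_apply, smul_eq_mul,
          he1, ← hqdef, inv_mul_cancel₀ hq, sub_self]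
      have h2 : u (φ0 (q⁻¹ • c - e)) = 0 := hku (Submodule.mem_map_of_mem h1)
      rw [map_sub, map_sub, map_smul, map_smul, smul_eq_mul, sub_eq_zero] at h2
      -- the value of `u` at `a`
      have h3 : φ0 c = fun s => -(q * ((a s : ℚ) : Qa)) := by
        funext s
        exact eq_neg_of_add_eq_zero_left (hc s)
      have h4 : u (φ0 c) = -(q * ∑ s, ((a s : ℚ) : Qa) * u (Pi.single s 1)) := by
        rw [h3, huv, Finset.mul_sum, ← Finset.sum_neg_distrib]
        refine Finset.sum_congr rfl fun s _ => ?_
        ring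
      have h5 : u (φ0 e) = -∑ s, ((a s : ℚ) : Qa) * u (Pi.single s 1) := by
        rw [← h2, h4, mul_neg, ← mul_assoc, inv_mul_cancel₀ hq, one_mul]
      simp only [P, map_add, map_sum, map_mul, eval_C, eval_X]
      rw [h5, add_neg_eq_zero]
      refine Finset.sum_congr rfl fun s _ => ?_
      ring
  · refine Filter.Eventually.of_forall fun a z hz hzX => ?_
    obtain ⟨c, hcE, rfl, hc⟩ := key a z hz hzX
    by_cases hq : c (Fin.last r) = 0
    · refine hzero c hcE hq fun s => ?_
      have h1 := hc s
      rwa [hq, zero_mul, add_zero] at h1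
    · exfalso
      apply hπ
      refine ⟨(c (Fin.last r))⁻¹ • c, E.smul_mem _ hcE, ?_⟩
      rw [Pi.smul_apply, smul_eq_mul, inv_mul_cancel₀ hq]

end MP60829e.FC
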